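import Pool.Agent.Lib.Itv.Code

set_option autoImplicit false

/-!
The coded unfolded map on its regions: formulas, bounds, closeness, expansion.
-/

open Set Filter Topology
open scoped unitInterval

namespace Pool.Agent.Itv

open Pool.Agent.Lib.Pc7f692

theorem cl01_lip (u v : ℝ) : |cl01 u - cl01 v| ≤ |u - v| := by
  unfold cl01
  rcases abs_cases (u - v) with ⟨h1, h2⟩ | ⟨h1, h2⟩ <;> rw [h1, abs_le] <;>
    simp only [max_def, min_def] <;> split_ifs <;> constructor <;> linarith

/-! ### the bump -/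

theorem chi_nonneg (u : ℝ) : 0 ≤ chi u := le_max_left _ _

theorem chi_le_one (u : ℝ) : chi u ≤ 1 := max_le zero_le_one (min_le_left _ _)

theorem continuous_chi : Continuous chi := by
  unfold chi
  have h : Continuous fun u : ℝ => nint (u + 3 / 4) := continuous_nint.comp (by fun_prop)
  fun_prop

/-- on an increasing half-lap -/
theorem nint_mid (k : ℕ) {u : ℝ} (h1 : (k : ℝ) ≤ u) (h2 : u ≤ k + 1 / 2) :
    nint (u + 3 / 4) = |u - (k + 1 / 4)| := by
  rcases le_total u (k + 1 / 4) with h | h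
  · rw [nint_down k (by linarith) (by linarith), abs_of_nonpos (by linarith)]
    ring
  · rw [nint_up (k + 1) (by push_cast; linarith) (by push_cast; linarith),
      abs_of_nonneg (by linarith)]
    push_cast
    ring

theorem chi_mid (k : ℕ) {u : ℝ} (h1 : (k : ℝ) ≤ u) (h2 : u ≤ k + 1 / 2) :
    chi u = max 0 (min 1 (3 - 16 * |u - (k + 1 / 4)|)) := by
  unfold chi
  rw [nint_mid k h1 h2]

theorem chi_left (k : ℕ) {u : ℝ} (h1 : (k : ℝ) ≤ u) (h2 : u ≤ k + 1 / 16) : chi u = 0 := by
  rw [chi_mid k h1 (by linarith), abs_of_nonpos (by linarith)]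
  exact max_eq_left ((min_le_right _ _).trans (by linarith))

theorem chi_right (k : ℕ) {u : ℝ} (h1 : (k : ℝ) + 7 / 16 ≤ u) (h2 : u ≤ k + 1) : chi u = 0 := by
  rcases le_total u (k + 1 / 2) with h | h
  · rw [chi_mid k (by linarith) h, abs_of_nonneg (by linarith)]
    exact max_eq_left ((min_le_right _ _).trans (by linarith))
  · unfold chi
    have h3 : 3 / 16 ≤ nint (u + 3 / 4) := by
      rcases le_total u (k + 3 / 4) with h4 | h4
      · rw [nint_up (k + 1) (by push_cast; linarith) (by push_cast; linarith)]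
        push_cast
        linarith
      · rw [nint_down (k + 1) (by push_cast; linarith) (by push_cast; linarith)]
        push_cast
        linarith
    exact max_eq_left ((min_le_right _ _).trans (by linarith))

theorem chi_one (k : ℕ) {u : ℝ} (h1 : (k : ℝ) + 1 / 8 ≤ u) (h2 : u ≤ k + 3 / 8) : chi u = 1 := by
  rw [chi_mid k (by linarith) (by linarith)]
  have : |u - (k + 1 / 4)| ≤ 1 / 8 := by
    rw [abs_le]
    constructor <;> linarith
  rw [min_eq_left (by linarith), max_eq_right zero_le_one]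

theorem chi_lip (k : ℕ) {u v : ℝ} (hu1 : (k : ℝ) ≤ u) (hu2 : u ≤ k + 1 / 2) (hv1 : (k : ℝ) ≤ v)
    (hv2 : v ≤ k + 1 / 2) : |chi u - chi v| ≤ 16 * |u - v| := by
  rw [chi_mid k hu1 hu2, chi_mid k hv1 hv2]
  have h1 : |cl01 (3 - 16 * |u - (k + 1 / 4)|) - cl01 (3 - 16 * |v - (k + 1 / 4)|)| ≤
      |(3 - 16 * |u - (k + 1 / 4)|) - (3 - 16 * |v - (k + 1 / 4)|)| := cl01_lip _ _
  have h2 := abs_abs_sub_abs_le (v - (k + 1 / 4)) (u - (k + 1 / 4))
  rw [show v - (k + 1 / 4) - (u - (k + 1 / 4)) = v - u by ring, abs_sub_comm v u] at h2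
  have h3 : |(3 - 16 * |u - (k + 1 / 4)|) - (3 - 16 * |v - (k + 1 / 4)|)|
      = 16 * abs (|v - (k + 1 / 4)| - |u - (k + 1 / 4)|) := by
    rw [show (3 - 16 * |u - (k + 1 / 4)|) - (3 - 16 * |v - (k + 1 / 4)|)
      = 16 * (|v - (k + 1 / 4)| - |u - (k + 1 / 4)|) by ring, abs_mul,
      abs_of_pos (show (0 : ℝ) < 16 by norm_num)]
  rw [h3] at h1
  exact h1.trans (by linarith)

/-! ### regions -/

variable {f : C(I, I)} {a η : ℝ}

theorem Adm'.a_pos (h : Adm' f a η) : 0 < a := h.1.1

theorem Adm'.a_le (h : Adm' f a η) : a ≤ 1 := h.1.2.1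

theorem Adm'.pos (h : Adm' f a η) : 0 < η := h.1.2.2.1

theorem Adm'.eta_le (h : Adm' f a η) : η ≤ a / 128 := h.2

theorem Adm'.eta_le_one (h : Adm' f a η) : η ≤ 1 / 128 := by
  have := h.a_le
  have := h.eta_le
  linarith

/-- `L = a / η ≥ 128` -/
theorem Adm'.L_ge (h : Adm' f a η) : 128 ≤ a / η := by
  rw [le_div_iff₀ h.pos]
  have := h.eta_le
  linarith

theorem Adm'.half_mem (h : Adm' f a η) : η / 2 ∈ I :=
  ⟨by linarith [h.pos], by linarith [h.eta_le_one]⟩

theorem Adm'.bas_mem (h : Adm' f a η) : bas f a η ∈ I := by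
  have hL : 0 < a / η := div_pos h.a_pos h.pos
  exact ⟨lip_nonneg f hL.le _, lip_le_one f hL.le ⟨η / 2, h.half_mem⟩⟩

theorem Adm'.mid_bounds (h : Adm' f a η) : a / 2 ≤ mid f a η ∧ mid f a η ≤ 1 - a / 2 ∧
    bas f a η - a / 2 ≤ mid f a η ∧ mid f a η ≤ bas f a η + a / 2 := by
  have h1 := h.bas_mem.1
  have h2 := h.bas_mem.2
  have h3 := h.a_pos
  have h4 := h.a_le
  unfold mid
  refine ⟨le_max_left _ _, max_le (by linarith) (min_le_right _ _), ?_, ?_⟩
  · rcases le_total (bas f a η) (1 - a / 2) with h5 | h5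
    · rw [min_eq_left h5]
      exact le_trans (by linarith) (le_max_right _ _)
    · rw [min_eq_right h5]
      exact le_trans (by linarith) (le_max_right _ _)
  · exact max_le (by linarith) ((min_le_left _ _).trans (by linarith))

/-- the bump vanishes at `η / 2` -/
theorem plat_half (h : Adm' f a η) : plat f a η (η / 2) = bas f a η + a := by
  have hη := h.pos
  have e1 : η / 2 / η = 1 / 2 := by field_simp
  unfold plat
  rw [e1, chi_right 0 (by norm_num) (by norm_num), mul_zero]
  have e2 : clampK 0 (unf f a η (η / 2) - η / 2) = 0 := by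
    have := abs_clampK_le (le_refl (0 : ℝ)) (unf f a η (η / 2) - η / 2)
    exact abs_eq_zero.1 (le_antisymm this (abs_nonneg _))
  rw [e2, sub_zero]
  unfold unf bas
  rw [e1, zig_up 0 (by norm_num) (by norm_num)]
  push_cast
  ring

theorem cu_code (h : Adm' f a η) (e : W) {x : ℝ} (hx : x ≤ η / 4) :
    cu f a η e x = mid f a η + a / 2 - a * code e (4 * x / η) := by
  have hη := h.pos
  unfold cu
  have h1 : 4 * x / η - 1 ≤ 0 := by
    rw [sub_nonpos, div_le_one hη]
    linarith
  rw [cl01_of_nonpos h1, max_eq_right (by linarith), plat_half h]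
  ring

theorem cu_join (h : Adm' f a η) (e : W) {x : ℝ} (hx : η / 4 ≤ x) (hx' : x ≤ η / 2) :
    cu f a η e x = mid f a η - a / 2 + (bas f a η + 3 / 2 * a - mid f a η) * (4 * x / η - 1) := by
  have hη := h.pos
  unfold cu
  have h1 : 1 ≤ 4 * x / η := by
    rw [le_div_iff₀ hη]
    linarith
  have h2 : 4 * x / η ≤ 2 := by
    rw [div_le_iff₀ hη]
    linarith
  rw [cl01_of_mem (by linarith) (by linarith), max_eq_right hx', plat_half h, code_of_one_le e h1]
  ring

theorem cu_plat (h : Adm' f a η) (e : W) {x : ℝ} (hx : η / 2 ≤ x) :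
    cu f a η e x = plat f a η x := by
  have hη := h.pos
  unfold cu
  have h1 : 2 ≤ 4 * x / η := by
    rw [le_div_iff₀ hη]
    linarith
  rw [cl01_of_one_le (by linarith), max_eq_left hx, code_of_one_le e (by linarith)]
  ring

theorem continuous_plat (hη : η ≠ 0) : Continuous (plat f a η) := by
  have h1 := continuous_unf (f := f) (a := a) hη
  have h2 : Continuous fun x : ℝ => chi (x / η) := continuous_chi.comp (by fun_prop)
  unfold plat clampK
  fun_prop

theorem continuous_cu (hη : η ≠ 0) (e : W) : Continuous (cu f a η e) := by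
  have h1 : Continuous fun x : ℝ => code e (4 * x / η) :=
    continuous_code.comp (by fun_prop : Continuous fun x : ℝ => (e, 4 * x / η))
  have h2 : Continuous fun x : ℝ => cl01 (4 * x / η - 1) := continuous_cl01.comp (by fun_prop)
  have h3 : Continuous fun x : ℝ => plat f a η (max x (η / 2)) :=
    (continuous_plat hη).comp (by fun_prop)
  unfold cu
  fun_prop

theorem continuous_cz (hη : η ≠ 0) (e : W) : Continuous (cz f a η e) :=
  continuous_fold.comp (continuous_cu hη e)

/-- the moved map lies between the old one and the diagonal, and is close to the old one -/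
theorem plat_bounds (h : Adm' f a η) (x : ℝ) :
    |plat f a η x - unf f a η x| ≤ a / 64 ∧
      min x (unf f a η x) ≤ plat f a η x ∧ plat f a η x ≤ max x (unf f a η x) := by
  have ha := h.a_pos
  have hc := chi_nonneg (x / η)
  have hc1 := chi_le_one (x / η)
  have hk : 0 ≤ a / 64 * chi (x / η) := by positivity
  have h1 := abs_clampK_le hk (unf f a η x - x)
  unfold plat
  refine ⟨?_, ?_, ?_⟩
  · rw [abs_sub_comm, sub_sub_cancel]
    refine h1.trans ?_
    nlinarith
  · rcases le_total x (unf f a η x) with h2 | h2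
    · have h3 := (clampK_nonneg hk (by linarith : 0 ≤ unf f a η x - x)).2
      exact (min_le_left _ _).trans (by linarith)
    · have h3 := (clampK_nonpos hk (by linarith : unf f a η x - x ≤ 0)).2
      exact (min_le_right _ _).trans (by linarith)
  · rcases le_total x (unf f a η x) with h2 | h2
    · have h3 := (clampK_nonneg hk (by linarith : 0 ≤ unf f a η x - x)).1
      exact le_trans (by linarith) (le_max_right _ _)
    · have h3 := (clampK_nonpos hk (by linarith : unf f a η x - x ≤ 0)).1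
      exact le_trans (by linarith) (le_max_left _ _)

theorem cu_code_mem (h : Adm' f a η) (e : W) {x : ℝ} (hx : x ≤ η / 4) :
    mid f a η - a / 2 ≤ cu f a η e x ∧ cu f a η e x ≤ mid f a η + a / 2 := by
  rw [cu_code h e hx]
  have h1 := code_nonneg e (4 * x / η)
  have h2 := code_le_one e (4 * x / η)
  have ha := h.a_pos
  constructor <;> nlinarith

theorem cu_join_mem (h : Adm' f a η) (e : W) {x : ℝ} (hx : η / 4 ≤ x) (hx' : x ≤ η / 2) :
    mid f a η - a / 2 ≤ cu f a η e x ∧ cu f a η e x ≤ bas f a η + a := by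
  rw [cu_join h e hx hx']
  have hη := h.pos
  have h1 : 1 ≤ 4 * x / η := by
    rw [le_div_iff₀ hη]
    linarith
  have h2 : 4 * x / η ≤ 2 := by
    rw [div_le_iff₀ hη]
    linarith
  have ha := h.a_pos
  obtain ⟨-, -, -, h3⟩ := h.mid_bounds
  constructor
  · have : 0 ≤ (bas f a η + 3 / 2 * a - mid f a η) * (4 * x / η - 1) :=
      mul_nonneg (by linarith) (by linarith)
    linarith
  · have : (bas f a η + 3 / 2 * a - mid f a η) * (4 * x / η - 1)
        ≤ (bas f a η + 3 / 2 * a - mid f a η) * 1 :=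
      mul_le_mul_of_nonneg_left (by linarith) (by linarith)
    linarith

theorem cu_mem (h : Adm' f a η) (e : W) (x : I) :
    -1 ≤ cu f a η e x ∧ cu f a η e x ≤ 2 := by
  have ha := h.a_pos
  have ha1 := h.a_le
  obtain ⟨m1, m2, m3, m4⟩ := h.mid_bounds
  have hb := h.bas_mem
  have hb1 := hb.1
  have hb2 := hb.2
  rcases le_total (x : ℝ) (η / 4) with hx | hx
  · obtain ⟨h1, h2⟩ := cu_code_mem h e hx
    constructor <;> linarith
  · rcases le_total (x : ℝ) (η / 2) with hx' | hx'
    · obtain ⟨h1, h2⟩ := cu_join_mem h e hx hx'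
      constructor <;> linarith
    · rw [cu_plat h e hx']
      obtain ⟨-, h1, h2⟩ := plat_bounds h (x : ℝ)
      have h3 := h.1.unf_mem x
      have h4 := x.2.1
      have h5 := x.2.2
      constructor
      · exact le_trans (le_min (by linarith) h3.1) h1
      · exact h2.trans (max_le (by linarith) h3.2)

theorem cz_mem (h : Adm' f a η) (e : W) (x : I) : cz f a η e x ∈ I :=
  fold_mem (cu_mem h e x).1 (cu_mem h e x).2

/-- the regularisation near `x` is close to `f x` -/
theorem Adm'.near (h : Adm' f a η) {x : I} {z : ℝ} (hz : z ∈ I) (hzx : |z - x| ≤ 3 / 2 * η)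
    (ha2 : a ≤ 1 / 2) : |lip f (a / η) z - f x| ≤ a / 8 := by
  have ha := h.a_pos
  have hη := h.pos
  have hηa : 3 / 2 * η ≤ η / a := by
    rw [le_div_iff₀ ha]
    nlinarith
  have h1 := h.1.close ⟨z, hz⟩
  have h2 := h.1.2.2.2.2 ⟨z, hz⟩ x (hzx.trans hηa)
  have h3 : lip f (a / η) z - f x = (lip f (a / η) z - f ⟨z, hz⟩) + (f ⟨z, hz⟩ - f x) := by ring
  rw [h3]
  calc _ ≤ _ := abs_add_le _ _
    _ ≤ a / 16 + a / 16 := add_le_add h1 h2
    _ = a / 8 := by ring

theorem cz_close (h : Adm' f a η) (ha2 : a ≤ 1 / 2) (e : W) (x : I) :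
    |cz f a η e x - f x| ≤ 2 * a := by
  have ha := h.a_pos
  have hη := h.pos
  have h1 : |cz f a η e x - fold (f x)| ≤ |cu f a η e x - f x| := abs_fold_sub_le _ _
  rw [fold_of_mem (f x).2.1 (f x).2.2] at h1
  refine h1.trans ?_
  obtain ⟨m1, m2, m3, m4⟩ := h.mid_bounds
  rcases le_total (x : ℝ) (η / 2) with hx | hx
  · have hb : |bas f a η - f x| ≤ a / 8 := by
      refine h.near h.half_mem ?_ ha2
      have := x.2.1
      rw [abs_le]
      constructor <;> linarith
    rw [abs_le] at hb ⊢
    rcases le_total (x : ℝ) (η / 4) with hx' | hx'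
    · obtain ⟨h1, h2⟩ := cu_code_mem h e hx'
      constructor <;> linarith [hb.1, hb.2]
    · obtain ⟨h1, h2⟩ := cu_join_mem h e hx' hx
      constructor <;> linarith [hb.1, hb.2]
  · rw [cu_plat h e hx]
    have h2 := (plat_bounds h (x : ℝ)).1
    have h3 := h.1.close x
    have h4 := abs_zig_le ((x : ℝ) / η)
    have h5 : |a * zig (x / η)| ≤ a := by
      rw [abs_mul, abs_of_pos ha]
      nlinarith
    have h6 : plat f a η x - f x = (plat f a η x - unf f a η x) +
        ((lip f (a / η) x - f x) + a * zig (x / η)) := by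
      unfold unf
      ring
    rw [h6]
    calc _ ≤ |plat f a η x - unf f a η x| + |(lip f (a / η) x - f x) + a * zig (x / η)| :=
          abs_add_le _ _
      _ ≤ a / 64 + (a / 16 + a) := by
          refine add_le_add h2 ((abs_add_le _ _).trans (add_le_add h3 h5))
      _ ≤ 2 * a := by linarith

end Pool.Agent.Itv
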