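import Pool.Agent.Lib.Itv.Grow

set_option autoImplicit false

/-!
The coded map covers (half-laps `H j`, `j ≥ 1`), so it is surjective if `f` is; it is chain
transitive if `f` is.
-/

open Set Filter Topology
open scoped unitInterval

namespace Pool.Agent.Itv

open Pool.Agent.Lib.Pc7f692

variable {f : C(I, I)} {a η : ℝ}

/-- the coded map -/
noncomputable def cmap (h : Adm' f a η) (e : W) : C(I, I) where
  toFun x := ⟨cz f a η e x, cz_mem h e x⟩
  continuous_toFun := ((continuous_cz h.pos.ne' e).comp continuous_subtype_val).subtype_mk _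

theorem cmap_coe (h : Adm' f a η) (e : W) (x : I) : ((cmap h e x : I) : ℝ) = cz f a η e x := rfl

/-- `H j` is near `x` -/
def Nr (η : ℝ) (j : ℕ) (x : I) : Prop :=
  1 ≤ j ∧ ((j : ℝ) + 1) * (η / 2) ≤ 1 ∧ |(j : ℝ) * (η / 2) - x| ≤ 3 / 2 * η ∧
    |((j : ℝ) + 1) * (η / 2) - x| ≤ 3 / 2 * η

theorem Nr.dist_le {j : ℕ} {x : I} (h : Nr η j x) {s : ℝ}
    (hs : s ∈ Icc ((j : ℝ) * (η / 2)) (((j : ℝ) + 1) * (η / 2))) : |s - x| ≤ 3 / 2 * η := by
  obtain ⟨-, -, h1, h2⟩ := h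
  rw [abs_le] at h1 h2 ⊢
  exact ⟨by linarith [hs.1, h1.1], by linarith [hs.2, h2.2]⟩

theorem exists_nr (hη : 0 < η) (hη1 : η ≤ 1) (x : I) : ∃ j, Nr η j x := by
  obtain ⟨j, h1, h2, h3⟩ := exists_near hη hη1 x
  rcases Nat.eq_zero_or_pos j with hj | hj
  · subst hj
    have hx := x.2.1
    rw [abs_le] at h2 h3
    push_cast at h2 h3
    refine ⟨1, le_rfl, by push_cast; linarith, ?_, ?_⟩
    · rw [abs_le]
      push_cast
      constructor <;> linarith [h2.1, h2.2]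
    · rw [abs_le]
      push_cast
      constructor <;> linarith [h2.1, h2.2]
  · exact ⟨j, hj, h1, h2.trans (by linarith), h3.trans (by linarith)⟩

/-- values at the ends of the half-laps -/
theorem cu_end (h : Adm' f a η) (e : W) {j : ℕ} (hj : 1 ≤ j) :
    cu f a η e ((j : ℝ) * (η / 2)) = unf f a η ((j : ℝ) * (η / 2)) := by
  have hη := h.pos
  have hj' : (1 : ℝ) ≤ j := by exact_mod_cast hj
  rw [cu_plat h e (by nlinarith), plat_of_chi]
  have e1 : (j : ℝ) * (η / 2) / η = j / 2 := by field_simp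
  rw [e1]
  rcases Nat.even_or_odd' j with ⟨k, rfl | rfl⟩
  · apply chi_left k
    · push_cast; linarith
    · push_cast; linarith
  · apply chi_right k
    · push_cast; linarith
    · push_cast; linarith

theorem cover (h : Adm' f a η) (ha2 : a ≤ 1 / 2) (e : W) {j : ℕ} {x : I} (hn : Nr η j x) {s : ℝ}
    (hs : s ∈ I) (hd : |(f x : ℝ) - s| ≤ 7 / 8 * a) :
    s ∈ cz f a η e '' Icc ((j : ℝ) * (η / 2)) (((j : ℝ) + 1) * (η / 2)) := by
  have hη := h.pos
  have ha := h.a_pos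
  obtain ⟨hj0, hj1, hn1, hn2⟩ := hn
  set c : ℝ := (j : ℝ) * (η / 2) with hc
  set c' : ℝ := ((j : ℝ) + 1) * (η / 2) with hc'
  have hc0 : 0 ≤ c := by positivity
  have hcc' : c ≤ c' := by rw [hc, hc']; nlinarith
  have hcI : c ∈ I := ⟨hc0, hcc'.trans hj1⟩
  have hc'I : c' ∈ I := ⟨hc0.trans hcc', hj1⟩
  have v1 := h.near hcI hn1 ha2
  have v2 := h.near hc'I hn2 ha2
  have w1 : cu f a η e c = unf f a η c := cu_end h e hj0
  have w2 : cu f a η e c' = unf f a η c' := by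
    have := cu_end h e (j := j + 1) (by omega)
    push_cast at this
    exact this
  have hzc : c / η = (j : ℝ) / 2 := by rw [hc]; field_simp
  have hzc' : c' / η = ((j : ℝ) + 1) / 2 := by rw [hc']; field_simp
  have hbtw : s ∈ uIcc (cu f a η e c) (cu f a η e c') := by
    rw [w1, w2]
    rw [abs_le] at v1 v2 hd
    rw [mem_uIcc]
    unfold unf
    rw [hzc, hzc']
    rcases zig_lap j with hz | hz
    · left
      rw [hz _ le_rfl (by linarith), hz _ (by linarith) le_rfl]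
      constructor
      · have : a * (4 * ((j : ℝ) / 2 - j / 2) - 1) = -a := by ring
        rw [this]; linarith [v1.1, v1.2, hd.1, hd.2]
      · have : a * (4 * (((j : ℝ) + 1) / 2 - j / 2) - 1) = a := by ring
        rw [this]; linarith [v2.1, v2.2, hd.1, hd.2]
    · right
      rw [hz _ le_rfl (by linarith), hz _ (by linarith) le_rfl]
      constructor
      · have : a * (1 - 4 * (((j : ℝ) + 1) / 2 - j / 2)) = -a := by ring
        rw [this]; linarith [v2.1, v2.2, hd.1, hd.2]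
      · have : a * (1 - 4 * ((j : ℝ) / 2 - j / 2)) = a := by ring
        rw [this]; linarith [v1.1, v1.2, hd.1, hd.2]
  have hcont : ContinuousOn (cu f a η e) (uIcc c c') := (continuous_cu hη.ne' e).continuousOn
  obtain ⟨x', hx', hx's⟩ := intermediate_value_uIcc hcont hbtw
  rw [uIcc_of_le hcc'] at hx'
  refine ⟨x', hx', ?_⟩
  unfold cz
  rw [hx's, fold_of_mem hs.1 hs.2]

/-- the same for the map of the unit interval -/
theorem cover' (h : Adm' f a η) (ha2 : a ≤ 1 / 2) (e : W) {j : ℕ} {x : I} (hn : Nr η j x) (s : I)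
    (hd : |(f x : ℝ) - s| ≤ 7 / 8 * a) :
    ∃ w : I, (w : ℝ) ∈ Icc ((j : ℝ) * (η / 2)) (((j : ℝ) + 1) * (η / 2)) ∧ cmap h e w = s := by
  have hη := h.pos
  obtain ⟨w, hw, hws⟩ := cover h ha2 e hn s.2 hd
  have hw0 : 0 ≤ (j : ℝ) * (η / 2) := by positivity
  refine ⟨⟨w, hw0.trans hw.1, hw.2.trans hn.2.1⟩, hw, ?_⟩
  exact Subtype.ext hws

theorem cmap_surj (h : Adm' f a η) (ha2 : a ≤ 1 / 2) (e : W) (hf : Function.Surjective f) :
    Function.Surjective (cmap h e) := by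
  intro s
  obtain ⟨x, rfl⟩ := hf s
  obtain ⟨j, hj⟩ := exists_nr h.pos (by linarith [h.eta_le_one]) x
  obtain ⟨w, -, hw⟩ := cover' h ha2 e hj (f x) (by
    rw [sub_self, abs_zero]
    linarith [h.a_pos])
  exact ⟨w, hw⟩

theorem cmap_chain (h : Adm' f a η) (ha2 : a ≤ 1 / 2) (e : W) (hf : IsChainTrans f) :
    IsChainTrans (cmap h e) := by
  have hη := h.pos
  have ha := h.a_pos
  intro ε hε x y
  set g := cmap h e with hg
  -- widening a reachable image
  have widen : ∀ p q c d : ℝ, 0 ≤ p → q ≤ 1 → c ≤ d → 0 ≤ c → d ≤ 1 →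
      (∀ w : I, (w : ℝ) ∈ Icc p q → Relation.TransGen (Step g ε) x w) →
      Icc c d ⊆ cz f a η e '' Icc p q →
      ∀ w : I, (w : ℝ) ∈ Icc (c - ε / 2) (d + ε / 2) → Relation.TransGen (Step g ε) x w := by
    intro p q c d hp hq hcd hc hd hr hsub w hw
    obtain ⟨s, hs, hsw⟩ : ∃ s ∈ Icc c d, |s - w| ≤ ε / 2 := by
      rcases le_total (w : ℝ) c with h1 | h1
      · exact ⟨c, ⟨le_rfl, hcd⟩, by rw [abs_le]; constructor <;> linarith [hw.1]⟩
      · rcases le_total (w : ℝ) d with h2 | h2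
        · exact ⟨w, ⟨h1, h2⟩, by rw [sub_self, abs_zero]; positivity⟩
        · exact ⟨d, ⟨hcd, le_rfl⟩, by rw [abs_le]; constructor <;> linarith [hw.2]⟩
    obtain ⟨z, hz, hzs⟩ := hsub hs
    have hzI : z ∈ I := ⟨hp.trans hz.1, hz.2.trans hq⟩
    refine (hr ⟨z, hzI⟩ hz).tail ?_
    show |(g ⟨z, hzI⟩ : ℝ) - w| < ε
    rw [hg, cmap_coe, hzs]
    linarith
  -- a reachable interval, clipped
  have clip : ∀ c d r : ℝ, c ≤ d → 0 ≤ c → d ≤ 1 → r ≤ d - c →
      (∀ w : I, (w : ℝ) ∈ Icc (c - ε / 2) (d + ε / 2) → Relation.TransGen (Step g ε) x w) →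
      ∃ p q : ℝ, 0 ≤ p ∧ p < q ∧ q ≤ 1 ∧
        (∀ w : I, (w : ℝ) ∈ Icc p q → Relation.TransGen (Step g ε) x w) ∧
        ((∃ j : ℕ, 1 ≤ j ∧ p ≤ j * (η / 2) ∧ ((j : ℝ) + 1) * (η / 2) ≤ q) ∨ r + ε / 2 ≤ q - p) := by
    intro c d r hcd hc hd hr hreach
    have hη1 := h.eta_le_one
    refine ⟨max 0 (c - ε / 2), min 1 (d + ε / 2), le_max_left _ _, ?_, min_le_left _ _, ?_, ?_⟩
    · rcases max_cases 0 (c - ε / 2) with ⟨h1, h2⟩ | ⟨h1, h2⟩ <;>
        rcases min_cases 1 (d + ε / 2) with ⟨h3, h4⟩ | ⟨h3, h4⟩ <;> rw [h1, h3] <;> linarith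
    · intro w hw
      exact hreach w ⟨(le_max_right _ _).trans hw.1, hw.2.trans (min_le_right _ _)⟩
    · rcases max_cases 0 (c - ε / 2) with ⟨h1, h2⟩ | ⟨h1, h2⟩ <;>
        rcases min_cases 1 (d + ε / 2) with ⟨h3, h4⟩ | ⟨h3, h4⟩ <;> rw [h1, h3]
      · left
        refine ⟨1, le_rfl, by positivity, ?_⟩
        push_cast
        linarith
      · right; linarith
      · right; linarith
      · right; linarith
  -- growing
  have key : ∀ n : ℕ, ∃ p q : ℝ, 0 ≤ p ∧ p < q ∧ q ≤ 1 ∧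
      (∀ w : I, (w : ℝ) ∈ Icc p q → Relation.TransGen (Step g ε) x w) ∧
      ((∃ j : ℕ, 1 ≤ j ∧ p ≤ j * (η / 2) ∧ ((j : ℝ) + 1) * (η / 2) ≤ q) ∨
        (n : ℝ) * (ε / 2) ≤ q - p) := by
    intro n
    induction n with
    | zero =>
      have hgx := (g x).2
      obtain ⟨p, q, h1, h2, h3, h4, h5⟩ := clip (g x) (g x) 0 le_rfl hgx.1 hgx.2 (by linarith)
        (fun w hw => by
          refine Relation.TransGen.single ?_
          show |(g x : ℝ) - w| < ε
          rw [abs_lt]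
          constructor <;> linarith [hw.1, hw.2])
      refine ⟨p, q, h1, h2, h3, h4, ?_⟩
      rcases h5 with h5 | h5
      · exact Or.inl h5
      · right
        push_cast
        linarith
    | succ n ih =>
      obtain ⟨p, q, hp, hpq, hq, hr, hor⟩ := ih
      by_cases hlap : ∃ j : ℕ, 1 ≤ j ∧ p ≤ j * (η / 2) ∧ ((j : ℝ) + 1) * (η / 2) ≤ q
      · exact ⟨p, q, hp, hpq, hq, hr, Or.inl hlap⟩
      · have hlen : (n : ℝ) * (ε / 2) ≤ q - p := by
          rcases hor with h1 | h1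
          · exact absurd h1 hlap
          · exact h1
        have hno : ∀ j : ℕ, 1 ≤ j → ¬ (p ≤ j * (η / 2) ∧ ((j : ℝ) + 1) * (η / 2) ≤ q) :=
          fun j hj hh => hlap ⟨j, hj, hh⟩
        obtain ⟨c, d, hc, hd, hcd, hsub⟩ := grow h e hp hpq hq hno
        have hcd' : c ≤ d := by linarith
        obtain ⟨p', q', h1, h2, h3, h4, h5⟩ := clip c d (q - p) hcd' hc hd hcd
          (widen p q c d hp hq hcd' hc hd hr hsub)
        refine ⟨p', q', h1, h2, h3, h4, ?_⟩
        rcases h5 with h5 | h5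
        · exact Or.inl h5
        · right
          push_cast
          linarith
  -- a reachable half-lap
  obtain ⟨j, hj1, hj2, hj3⟩ : ∃ j : ℕ, 1 ≤ j ∧ ((j : ℝ) + 1) * (η / 2) ≤ 1 ∧
      ∀ w : I, (w : ℝ) ∈ Icc ((j : ℝ) * (η / 2)) (((j : ℝ) + 1) * (η / 2)) →
        Relation.TransGen (Step g ε) x w := by
    obtain ⟨n, hn⟩ := exists_nat_gt (1 / (ε / 2))
    obtain ⟨p, q, hp, hpq, hq, hr, hor⟩ := key n
    rw [div_lt_iff₀ (by positivity)] at hn
    rcases hor with ⟨j, h1, h2, h3⟩ | h1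
    · exact ⟨j, h1, h3.trans hq, fun w hw => hr w ⟨h2.trans hw.1, hw.2.trans h3⟩⟩
    · exfalso
      linarith
  have hz0 : (j : ℝ) * (η / 2) ∈ I := ⟨by positivity, by nlinarith⟩
  have hnr : Nr η j ⟨(j : ℝ) * (η / 2), hz0⟩ := by
    refine ⟨hj1, hj2, ?_, ?_⟩
    · simp only [sub_self, abs_zero]
      positivity
    · have : ((j : ℝ) + 1) * (η / 2) - (j : ℝ) * (η / 2) = η / 2 := by ring
      simp only [this]
      rw [abs_of_pos (by positivity)]
      linarith
  -- one step of the `f`-chain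
  have step : ∀ z z' : I, Step f (a / 2) z z' →
      (∃ i, Nr η i z ∧ ∀ w : I, (w : ℝ) ∈ Icc ((i : ℝ) * (η / 2)) (((i : ℝ) + 1) * (η / 2)) →
        Relation.TransGen (Step g ε) x w) →
      Relation.TransGen (Step g ε) x z' ∧
      ∃ i, Nr η i z' ∧ ∀ w : I, (w : ℝ) ∈ Icc ((i : ℝ) * (η / 2)) (((i : ℝ) + 1) * (η / 2)) →
        Relation.TransGen (Step g ε) x w := by
    rintro z z' hzz ⟨i, hi, hr⟩
    have hzz' : |(f z : ℝ) - z'| < a / 2 := hzz
    have reach : ∀ s : I, |(f z : ℝ) - s| ≤ 7 / 8 * a → Relation.TransGen (Step g ε) x s := by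
      intro s hs
      obtain ⟨w, hw, hws⟩ := cover' h ha2 e hi s hs
      refine (hr w hw).tail ?_
      show dist (g w) s < ε
      rw [hg, hws, dist_self]
      exact hε
    refine ⟨reach z' (by linarith), ?_⟩
    obtain ⟨i', hi'⟩ := exists_nr hη (by linarith [h.eta_le_one]) z'
    refine ⟨i', hi', fun w hw => reach w ?_⟩
    have h1 := hi'.dist_le hw
    rw [abs_sub_comm] at h1
    have h2 : (f z : ℝ) - w = ((f z : ℝ) - z') + (z' - w) := by ring
    rw [h2]
    have h3 := h.eta_le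
    calc _ ≤ _ := abs_add_le _ _
      _ ≤ a / 2 + 3 / 2 * η := by linarith
      _ ≤ 7 / 8 * a := by linarith
  have hchain := hf (a / 2) (by positivity) ⟨(j : ℝ) * (η / 2), hz0⟩ y
  have fin : Relation.TransGen (Step g ε) x y ∧
      ∃ i, Nr η i y ∧ ∀ w : I, (w : ℝ) ∈ Icc ((i : ℝ) * (η / 2)) (((i : ℝ) + 1) * (η / 2)) →
        Relation.TransGen (Step g ε) x w := by
    induction hchain with
    | single hb => exact step _ _ hb ⟨j, hnr, hj3⟩
    | tail _ hbc ih => exact step _ _ hbc ih.2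
  exact fin.1

end Pool.Agent.Itv
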