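import Pool.Agent.Lib.Itv.Defs

set_option autoImplicit false

/-!
Elementary facts on the code function.
-/

open Set Filter Topology
open scoped unitInterval

namespace Pool.Agent.Itv

open Pool.Agent.Lib.Pc7f692

theorem continuous_cl01 : Continuous cl01 := by
  unfold cl01
  fun_prop

theorem cl01_nonneg (u : ℝ) : 0 ≤ cl01 u := le_max_left _ _

theorem cl01_le_one (u : ℝ) : cl01 u ≤ 1 := max_le zero_le_one (min_le_left _ _)

theorem cl01_of_mem {u : ℝ} (h0 : 0 ≤ u) (h1 : u ≤ 1) : cl01 u = u := by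
  unfold cl01
  rw [min_eq_right h1, max_eq_right h0]

theorem cl01_of_nonpos {u : ℝ} (h : u ≤ 0) : cl01 u = 0 := by
  unfold cl01
  exact max_eq_left ((min_le_right _ _).trans h)

theorem cl01_of_one_le {u : ℝ} (h : 1 ≤ u) : cl01 u = 1 := by
  unfold cl01
  rw [min_eq_left h, max_eq_right zero_le_one]

theorem cl01_mono : Monotone cl01 := by
  intro u v h
  unfold cl01
  gcongr

/-! ### the Moebius function -/

theorem beta_den {e : ℝ} (he : 0 ≤ e) (u : ℝ) : 0 < 1 + e * cl01 u := by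
  have := mul_nonneg he (cl01_nonneg u)
  linarith

theorem beta_nonneg {e : ℝ} (he : 0 ≤ e) (u : ℝ) : 0 ≤ beta e u := by
  unfold beta
  have := beta_den he u
  have := cl01_nonneg u
  positivity

theorem beta_le_one {e : ℝ} (he : 0 ≤ e) (u : ℝ) : beta e u ≤ 1 := by
  unfold beta
  rw [div_le_one (beta_den he u)]
  have := cl01_le_one u
  nlinarith

theorem beta_of_nonpos (e : ℝ) {u : ℝ} (h : u ≤ 0) : beta e u = 0 := by
  unfold beta
  rw [cl01_of_nonpos h]
  simp

theorem beta_of_one_le {e : ℝ} (he : 0 ≤ e) {u : ℝ} (h : 1 ≤ u) : beta e u = 1 := by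
  unfold beta
  rw [cl01_of_one_le h, mul_one, mul_one, div_self]
  linarith

theorem beta_mono {e : ℝ} (he : 0 ≤ e) : Monotone (beta e) := by
  intro u v h
  unfold beta
  rw [div_le_div_iff₀ (beta_den he u) (beta_den he v)]
  have h1 := cl01_mono h
  nlinarith

theorem continuous_beta : Continuous fun p : {r : ℝ // 0 ≤ r} × ℝ => beta p.1 p.2 := by
  unfold beta
  have h1 : Continuous fun p : {r : ℝ // 0 ≤ r} × ℝ => (p.1 : ℝ) :=
    continuous_subtype_val.comp continuous_fst
  have h2 : Continuous fun p : {r : ℝ // 0 ≤ r} × ℝ => cl01 p.2 :=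
    continuous_cl01.comp continuous_snd
  exact ((continuous_const.add h1).mul h2).div (continuous_const.add (h1.mul h2))
    (fun p => (beta_den p.1.2 p.2).ne')

/-! ### the series -/

theorem summable_geo : Summable fun j : ℕ => (1 / 2 : ℝ) ^ (j + 1) :=
  (summable_geometric_two.mul_left (1 / 2)).congr (fun j => by rw [pow_succ]; ring)

theorem tsum_geo : ∑' j : ℕ, (1 / 2 : ℝ) ^ (j + 1) = 1 := by
  have h : ∀ j : ℕ, (1 / 2 : ℝ) ^ (j + 1) = 1 / 2 * (1 / 2) ^ j := fun j => by rw [pow_succ]; ring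
  rw [tsum_congr h, tsum_mul_left, tsum_geometric_two]
  norm_num

theorem summable_ser (e : W) (s : ℝ) :
    Summable fun j : ℕ => (1 / 2 : ℝ) ^ (j + 1) * beta (e j) (2 ^ (j + 1) * (s - 1) + 2) := by
  refine Summable.of_nonneg_of_le (fun j => ?_) (fun j => ?_) summable_geo
  · exact mul_nonneg (by positivity) (beta_nonneg (e j).2 _)
  · exact mul_le_of_le_one_right (by positivity) (beta_le_one (e j).2 _)

theorem continuous_ser : Continuous fun p : W × ℝ => ser p.1 p.2 := by
  unfold ser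
  refine continuous_tsum (fun j => ?_) summable_geo (fun j p => ?_)
  · have h1 : Continuous fun p : W × ℝ => (p.1 j : {r : ℝ // 0 ≤ r}) :=
      (continuous_apply j).comp continuous_fst
    have h2 : Continuous fun p : W × ℝ => (2 : ℝ) ^ (j + 1) * (p.2 - 1) + 2 := by fun_prop
    exact continuous_const.mul (continuous_beta.comp (h1.prodMk h2))
  · rw [Real.norm_of_nonneg (mul_nonneg (by positivity) (beta_nonneg (p.1 j).2 _))]
    exact mul_le_of_le_one_right (by positivity) (beta_le_one (p.1 j).2 _)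

theorem ser_of_nonpos (e : W) {s : ℝ} (h : s ≤ 0) : ser e s = 0 := by
  unfold ser
  have : ∀ j : ℕ, (1 / 2 : ℝ) ^ (j + 1) * beta (e j) (2 ^ (j + 1) * (s - 1) + 2) = 0 := by
    intro j
    rw [beta_of_nonpos, mul_zero]
    have : (1 : ℝ) ≤ 2 ^ j := one_le_pow₀ (by norm_num)
    rw [pow_succ]
    nlinarith
  rw [tsum_congr this, tsum_zero]

theorem ser_of_one_le (e : W) {s : ℝ} (h : 1 ≤ s) : ser e s = 1 := by
  unfold ser
  have : ∀ j : ℕ, (1 / 2 : ℝ) ^ (j + 1) * beta (e j) (2 ^ (j + 1) * (s - 1) + 2)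
      = (1 / 2 : ℝ) ^ (j + 1) := by
    intro j
    rw [beta_of_one_le (e j).2, mul_one]
    have : (0 : ℝ) < 2 ^ (j + 1) := by positivity
    nlinarith
  rw [tsum_congr this, tsum_geo]

theorem ser_mono (e : W) : Monotone (ser e) := by
  intro s s' h
  unfold ser
  refine Summable.tsum_le_tsum (fun j => ?_) (summable_ser e s) (summable_ser e s')
  have : (0 : ℝ) < 2 ^ (j + 1) := by positivity
  have h1 := beta_mono (e j).2 (show (2 : ℝ) ^ (j + 1) * (s - 1) + 2 ≤
    2 ^ (j + 1) * (s' - 1) + 2 by nlinarith)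
  exact mul_le_mul_of_nonneg_left h1 (by positivity)

/-- Block `j`: the difference of the series reads off the function `beta (e j)`. -/
theorem ser_block (e : W) (j : ℕ) {u : ℝ} (h0 : 0 ≤ u) (h1 : u ≤ 1) :
    ser e (1 - (1 / 2) ^ j + (1 / 2) ^ (j + 1) * u) - ser e (1 - (1 / 2) ^ j)
      = (1 / 2) ^ (j + 1) * beta (e j) u := by
  unfold ser
  rw [← Summable.tsum_sub (summable_ser e _) (summable_ser e _), tsum_eq_single j]
  · have e1 : (2 : ℝ) ^ (j + 1) * ((1 - (1 / 2) ^ j + (1 / 2) ^ (j + 1) * u) - 1) + 2 = u := by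
      have : (2 : ℝ) ^ (j + 1) * (1 / 2) ^ (j + 1) = 1 := by
        rw [← mul_pow]; norm_num
      have h2 : (2 : ℝ) ^ (j + 1) * (1 / 2) ^ j = 2 := by
        rw [pow_succ, mul_right_comm, ← mul_pow]; norm_num
      linear_combination u * this - h2
    have e2 : (2 : ℝ) ^ (j + 1) * ((1 - (1 / 2) ^ j) - 1) + 2 = 0 := by
      have h2 : (2 : ℝ) ^ (j + 1) * (1 / 2) ^ j = 2 := by
        rw [pow_succ, mul_right_comm, ← mul_pow]; norm_num
      linear_combination - h2
    rw [e1, e2, beta_of_nonpos _ (le_refl 0)]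
    ring
  · intro i hi
    have hp : (0 : ℝ) < 2 ^ (i + 1) := by positivity
    have hpj : (0 : ℝ) < (1 / 2) ^ (j + 1) := by positivity
    have hjj : ((1 : ℝ) / 2) ^ j = 2 * (1 / 2) ^ (j + 1) := by rw [pow_succ]; ring
    rcases Nat.lt_or_ge i j with hij | hij
    · -- both arguments are at least one
      have h2 : ((1 : ℝ) / 2) ^ j ≤ (1 / 2) ^ (i + 1) :=
        pow_le_pow_of_le_one (by norm_num) (by norm_num) hij
      have h3 : (2 : ℝ) ^ (i + 1) * (1 / 2) ^ (i + 1) = 1 := by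
        rw [← mul_pow]; norm_num
      have h4 : (2 : ℝ) ^ (i + 1) * (1 / 2) ^ j ≤ 1 := by
        calc _ ≤ (2 : ℝ) ^ (i + 1) * (1 / 2) ^ (i + 1) := by gcongr
          _ = 1 := h3
      have h5 : 0 ≤ (2 : ℝ) ^ (i + 1) * ((1 / 2) ^ (j + 1) * u) := by positivity
      rw [beta_of_one_le (e i).2, beta_of_one_le (e i).2, sub_self]
      · linarith
      · linarith
    · -- both arguments are nonpositive
      have hij' : j + 1 ≤ i := by omega
      have h2 : ((1 : ℝ) / 2) ^ i ≤ (1 / 2) ^ (j + 1) :=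
        pow_le_pow_of_le_one (by norm_num) (by norm_num) hij'
      have h3 : (2 : ℝ) ^ (i + 1) * (1 / 2) ^ i = 2 := by
        rw [pow_succ, mul_right_comm, ← mul_pow]; norm_num
      have h4 : 2 ≤ (2 : ℝ) ^ (i + 1) * (1 / 2) ^ (j + 1) := by
        calc (2 : ℝ) = (2 : ℝ) ^ (i + 1) * (1 / 2) ^ i := h3.symm
          _ ≤ _ := by gcongr
      have h5 : (2 : ℝ) ^ (i + 1) * ((1 / 2) ^ (j + 1) * u) ≤
          (2 : ℝ) ^ (i + 1) * (1 / 2) ^ (j + 1) := by
        have : (1 / 2 : ℝ) ^ (j + 1) * u ≤ (1 / 2) ^ (j + 1) := mul_le_of_le_one_right hpj.le h1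
        gcongr
      rw [beta_of_nonpos, beta_of_nonpos, sub_self]
      · rw [hjj]
        linarith
      · rw [hjj]
        linarith

/-! ### the code -/

theorem continuous_code : Continuous fun p : W × ℝ => code p.1 p.2 := by
  unfold code
  have h1 : Continuous fun p : W × ℝ => cl01 p.2 := continuous_cl01.comp continuous_snd
  exact (h1.add continuous_ser).div_const 2

theorem code_of_nonpos (e : W) {s : ℝ} (h : s ≤ 0) : code e s = 0 := by
  unfold code
  rw [cl01_of_nonpos h, ser_of_nonpos e h]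
  norm_num

theorem code_of_one_le (e : W) {s : ℝ} (h : 1 ≤ s) : code e s = 1 := by
  unfold code
  rw [cl01_of_one_le h, ser_of_one_le e h]
  norm_num

theorem code_mono (e : W) : Monotone (code e) := by
  intro s s' h
  unfold code
  have h1 := cl01_mono h
  have h2 := ser_mono e h
  linarith

theorem code_nonneg (e : W) (s : ℝ) : 0 ≤ code e s := by
  rcases le_total s 0 with h | h
  · rw [code_of_nonpos e h]
  · rw [← code_of_nonpos e (le_refl 0)]
    exact code_mono e h

theorem code_le_one (e : W) (s : ℝ) : code e s ≤ 1 := by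
  rcases le_total 1 s with h | h
  · rw [code_of_one_le e h]
  · rw [← code_of_one_le e (le_refl 1)]
    exact code_mono e h

theorem code_slope (e : W) {s s' : ℝ} (h0 : 0 ≤ s) (h : s ≤ s') (h1 : s' ≤ 1) :
    (s' - s) / 2 ≤ code e s' - code e s := by
  unfold code
  rw [cl01_of_mem h0 (h.trans h1), cl01_of_mem (h0.trans h) h1]
  have h2 := ser_mono e h
  linarith

/-- one coordinate: if `beta (e k)` converges pointwise on the unit interval to a function that
is continuous at `0` and vanishes there, then `e k` converges -/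
theorem beta_reads (e : ℕ → {r : ℝ // 0 ≤ r}) (Ψ : ℝ → ℝ) (hΨ0 : Ψ 0 = 0)
    (hΨ : ContinuousWithinAt Ψ (Icc 0 1) 0)
    (h : ∀ u ∈ Icc (0 : ℝ) 1, Tendsto (fun k => beta (e k) u) atTop (𝓝 (Ψ u))) :
    ∃ e' : {r : ℝ // 0 ≤ r}, Tendsto e atTop (𝓝 e') := by
  -- a small positive `u` with `Ψ u < 1 / 4`
  obtain ⟨u, hu0, hu1, hu⟩ : ∃ u : ℝ, 0 < u ∧ u ≤ 1 ∧ Ψ u < 1 / 4 := by
    have h1 : ∀ᶠ u in 𝓝[Icc 0 1] (0 : ℝ), Ψ u < 1 / 4 := by
      apply hΨ.eventually_lt_const
      rw [hΨ0]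
      norm_num
    rw [eventually_nhdsWithin_iff, Metric.eventually_nhds_iff] at h1
    obtain ⟨δ, hδ, h1⟩ := h1
    refine ⟨min (δ / 2) 1, lt_min (by linarith) one_pos, min_le_right _ _, h1 ?_ ?_⟩
    · rw [Real.dist_eq, sub_zero, abs_of_nonneg (le_min (by linarith) zero_le_one)]
      exact lt_of_le_of_lt (min_le_left _ _) (by linarith)
    · exact ⟨le_min (by linarith) zero_le_one, min_le_right _ _⟩
  -- so the codes are bounded by `1 / u`
  have hbd : ∀ᶠ k in atTop, (e k : ℝ) ≤ 1 / u := by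
    have h1 := (h u ⟨hu0.le, hu1⟩).eventually_lt_const hu
    filter_upwards [h1] with k hk
    have he := (e k).2
    unfold beta at hk
    rw [cl01_of_mem hu0.le hu1, div_lt_iff₀ (by positivity)] at hk
    rw [le_div_iff₀ hu0]
    nlinarith
  have hb := h (1 / 2) ⟨by norm_num, by norm_num⟩
  have hbe : ∀ k, beta (e k) (1 / 2) = (1 + (e k : ℝ)) / (2 + e k) := by
    intro k
    have he := (e k).2
    unfold beta
    rw [cl01_of_mem (by norm_num) (by norm_num), div_eq_div_iff (by positivity) (by positivity)]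
    ring
  set b : ℝ := Ψ (1 / 2) with hbdef
  have hb1 : b ≤ (1 + 1 / u) / (2 + 1 / u) := by
    refine le_of_tendsto hb ?_
    filter_upwards [hbd] with k hk
    have he := (e k).2
    rw [hbe, div_le_div_iff₀ (by positivity) (by positivity)]
    nlinarith
  have hblt : b < 1 := by
    refine lt_of_le_of_lt hb1 ?_
    rw [div_lt_one (by positivity)]
    linarith
  have hbge : 1 / 2 ≤ b := by
    refine ge_of_tendsto' hb (fun k => ?_)
    have he := (e k).2
    rw [hbe, div_le_div_iff₀ (by positivity) (by positivity)]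
    nlinarith
  refine ⟨⟨(2 * b - 1) / (1 - b), div_nonneg (by linarith) (by linarith)⟩, ?_⟩
  rw [tendsto_subtype_rng]
  have h2 : ∀ k, (e k : ℝ) = (2 * beta (e k) (1 / 2) - 1) / (1 - beta (e k) (1 / 2)) := by
    intro k
    have he := (e k).2
    rw [hbe]
    have : (2 : ℝ) + e k ≠ 0 := by positivity
    field_simp
    ring
  have h3 : Tendsto (fun k => (2 * beta (e k) (1 / 2) - 1) / (1 - beta (e k) (1 / 2))) atTop
      (𝓝 ((2 * b - 1) / (1 - b))) :=
    ((hb.const_mul 2).sub_const 1).div (hb.const_sub 1) (by linarith)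
  exact h3.congr (fun k => (h2 k).symm)

/-- reading the code off the code function: if the functions `code (e k)` converge pointwise on
the unit interval to a continuous function, then the codes converge -/
theorem code_reads (e : ℕ → W) (Φ : ℝ → ℝ) (hΦ : ContinuousOn Φ (Icc 0 1))
    (h : ∀ s ∈ Icc (0 : ℝ) 1, Tendsto (fun k => code (e k) s) atTop (𝓝 (Φ s))) :
    ∃ e' : W, Tendsto e atTop (𝓝 e') := by
  have key : ∀ j : ℕ, ∃ e' : {r : ℝ // 0 ≤ r}, Tendsto (fun k => e k j) atTop (𝓝 e') := by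
    intro j
    have hpj : (0 : ℝ) < (1 / 2) ^ (j + 1) := by positivity
    have hp1 : ((1 : ℝ) / 2) ^ j = 2 * (1 / 2) ^ (j + 1) := by rw [pow_succ]; ring
    have hle : ((1 : ℝ) / 2) ^ j ≤ 1 := pow_le_one₀ (by norm_num) (by norm_num)
    have hmem : ∀ u ∈ Icc (0 : ℝ) 1, 1 - (1 / 2) ^ j + (1 / 2) ^ (j + 1) * u ∈ Icc (0 : ℝ) 1 := by
      intro u hu
      have h1 : 0 ≤ (1 / 2 : ℝ) ^ (j + 1) * u := mul_nonneg hpj.le hu.1
      have h2 : (1 / 2 : ℝ) ^ (j + 1) * u ≤ (1 / 2) ^ (j + 1) := mul_le_of_le_one_right hpj.le hu.2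
      constructor <;> linarith
    set Ψ : ℝ → ℝ := fun u => 2 ^ (j + 1) *
      (2 * Φ (1 - (1 / 2) ^ j + (1 / 2) ^ (j + 1) * u) - 2 * Φ (1 - (1 / 2) ^ j)
        - (1 / 2) ^ (j + 1) * u) with hΨ
    refine beta_reads (fun k => e k j) Ψ ?_ ?_ ?_
    · rw [hΨ]
      simp
    · have h1 : ContinuousOn Ψ (Icc 0 1) := by
        rw [hΨ]
        have h2 : ContinuousOn (fun u : ℝ => Φ (1 - (1 / 2) ^ j + (1 / 2) ^ (j + 1) * u))
            (Icc 0 1) := hΦ.comp (by fun_prop) hmem
        exact (((h2.const_mul 2).sub continuousOn_const).sub (by fun_prop)).const_mul _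
      exact h1 0 ⟨le_refl 0, zero_le_one⟩
    · intro u hu
      have h0 : (1 : ℝ) - (1 / 2) ^ j ∈ Icc (0 : ℝ) 1 := by
        have := hmem 0 ⟨le_refl 0, zero_le_one⟩
        simpa using this
      have h1 := h _ (hmem u hu)
      have h2 := h _ h0
      have h3 : Tendsto (fun k => 2 ^ (j + 1) *
          (2 * code (e k) (1 - (1 / 2) ^ j + (1 / 2) ^ (j + 1) * u)
            - 2 * code (e k) (1 - (1 / 2) ^ j) - (1 / 2) ^ (j + 1) * u)) atTop (𝓝 (Ψ u)) :=
        (((h1.const_mul 2).sub (h2.const_mul 2)).sub_const _).const_mul _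
      refine h3.congr (fun k => ?_)
      have h4 := ser_block (e k) j hu.1 hu.2
      unfold code
      rw [cl01_of_mem (hmem u hu).1 (hmem u hu).2, cl01_of_mem h0.1 h0.2]
      have h5 : (2 : ℝ) ^ (j + 1) * (1 / 2) ^ (j + 1) = 1 := by
        rw [← mul_pow]; norm_num
      linear_combination (2 : ℝ) ^ (j + 1) * h4 + beta (e k j) u * h5
  choose e' he' using key
  exact ⟨e', tendsto_pi_nhds.2 he'⟩

end Pool.Agent.Itv
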