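import Pool.Agent.Lib.Itv.Op
import Pool.Agent.Lib.Tor.IntAE

set_option autoImplicit false

/-!
The spaces `C(I, I)`, surjective maps, closure of the transitive maps have coded operators; for
the closure of the transitive maps the values for positive parameters are not transitive.
-/

open Set Filter Topology
open scoped unitInterval

namespace Pool.Agent.Itv

open Pool.Agent.Lib.Pc7f692

theorem cop_zero (f : C(I, I)) (e : W) (t : I) (ht : ¬ 0 < (t : ℝ)) : cop (f, t, e) = f := by
  unfold cop
  rw [dif_neg]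
  intro h
  apply ht
  have h' : 0 < (t : ℝ) / 2 := h
  linarith

theorem cop_surj (f : C(I, I)) (t : I) (e : W) (hf : Function.Surjective f) :
    Function.Surjective (cop (f, t, e)) := by
  by_cases ht : 0 < (t : ℝ)
  · obtain ⟨η, h, he⟩ := cop_spec f t e ht
    rw [he]
    exact cmap_surj h (by linarith [t.2.2]) e hf
  · rw [cop_zero f e t ht]
    exact hf

theorem cop_chain (f : C(I, I)) (t : I) (e : W) (hf : IsChainTrans f) :
    IsChainTrans (cop (f, t, e)) := by
  by_cases ht : 0 < (t : ℝ)
  · obtain ⟨η, h, he⟩ := cop_spec f t e ht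
    rw [he]
    exact cmap_chain h (by linarith [t.2.2]) e hf
  · rw [cop_zero f e t ht]
    exact hf

theorem cop_not_trans (f : C(I, I)) (t : I) (e : W) (ht : 0 < t) : ¬ IsTrans (cop (f, t, e)) := by
  have ht' : 0 < (t : ℝ) := ht
  obtain ⟨η, h, he⟩ := cop_spec f t e ht'
  rw [he]
  exact cmap_not_trans h (by linarith [t.2.2]) e

end Pool.Agent.Itv

namespace Pool.Agent.Tor

open Pool.Agent.Lib.Pc7f692 (IsTrans IsChainTrans closure_trans)
open Pool.Agent.Itv

theorem mem_closure_Tr {f : CI} : f ∈ closure Tr ↔ IsChainTrans f := by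
  have h : closure Tr = {g : CI | IsChainTrans g} := closure_trans
  rw [h]
  rfl

theorem coded_CI : CodedM CI univ :=
  ⟨cop, continuous_cop, dist_cop, fun _ _ _ _ => mem_univ _, cop_reads⟩

theorem coded_SI : CodedM SI univ := by
  refine ⟨fun z => ⟨cop (z.1.1, z.2.1, z.2.2), cop_surj _ _ _ z.1.2⟩, ?_, ?_,
    fun _ _ _ _ => mem_univ _, ?_⟩
  · exact (continuous_cop.comp (by fun_prop)).subtype_mk _
  · intro x t e
    exact dist_cop x.1 t e
  · intro x t e τ y hτ ht hlim
    refine cop_reads (fun k => (x k).1) t e τ y.1 hτ ht ?_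
    exact (continuous_subtype_val.tendsto y).comp hlim

theorem coded_TI : CodedM TI {f | f.1 ∉ Tr} := by
  refine ⟨fun z => ⟨cop (z.1.1, z.2.1, z.2.2),
    mem_closure_Tr.2 (cop_chain _ _ _ (mem_closure_Tr.1 z.1.2))⟩, ?_, ?_, ?_, ?_⟩
  · exact (continuous_cop.comp (by fun_prop)).subtype_mk _
  · intro x t e
    exact dist_cop x.1 t e
  · intro x t e ht
    exact cop_not_trans x.1 t e ht
  · intro x t e τ y hτ ht hlim
    refine cop_reads (fun k => (x k).1) t e τ y.1 hτ ht ?_
    exact (continuous_subtype_val.tendsto y).comp hlim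

end Pool.Agent.Tor
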