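import Pool.Agent.Lib.Pc7f692.Trap
import Pool.Agent.Lib.Tor.Basic

set_option autoImplicit false

/-!
Interval part of MP_c7f692: the coded perturbation of an interval map. Definitions.

`f` is a continuous self-map of the interval, `(a, η)` are admissible for `f` (`Adm f a η`) with
`η ≤ a / 128`, `e : W` is a code. The half-laps are `H j = [j η / 2, (j + 1) η / 2]`. The unfolded
map `cu f a η e` is
* on `[0, η/4]` decreasing from `mid + a/2` to `mid - a/2`, of the form `mid + a/2 - a code e (4x/η)`;
* on `[η/4, η/2]` affine, increasing from `mid - a/2` to `bas + a` (slope at least `4 a / η`);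
* for `x ≥ η/2` equal to `plat f a η x`, that is the old unfolded zigzag map `unf f a η x`, moved
  towards the diagonal by at most `a / 64 * chi (x / η)`; `chi` is supported in the middle parts
  `[k + 1/16, k + 7/16]` of the increasing half-laps and equals `1` on `[k + 1/8, k + 3/8]`. So a
  crossing of the diagonal in the middle of an increasing half-lap becomes an interval of fixed
  points.
-/

open Set Filter Topology
open scoped unitInterval

namespace Pool.Agent.Itv

open Pool.Agent.Lib.Pc7f692

/-- the code space -/
abbrev W : Type := Pool.Agent.Tor.W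

/-- clamp to `[0, 1]` -/
def cl01 (u : ℝ) : ℝ := max 0 (min 1 u)

/-- the Moebius function with initial slope `1 + e`, from `(0, 0)` to `(1, 1)` -/
noncomputable def beta (e u : ℝ) : ℝ := (1 + e) * cl01 u / (1 + e * cl01 u)

/-- the sum of the blocks; block `j` is `[1 - 2⁻ʲ, 1 - 2⁻⁽ʲ⁺¹⁾]` -/
noncomputable def ser (e : W) (s : ℝ) : ℝ :=
  ∑' j : ℕ, (1 / 2 : ℝ) ^ (j + 1) * beta (e j) (2 ^ (j + 1) * (s - 1) + 2)

/-- the code: an increasing function from `0` (for `s ≤ 0`) to `1` (for `s ≥ 1`) -/
noncomputable def code (e : W) (s : ℝ) : ℝ := (cl01 s + ser e s) / 2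

/-- the bump in the middle of the increasing half-laps -/
noncomputable def chi (u : ℝ) : ℝ := max 0 (min 1 (3 - 16 * nint (u + 3 / 4)))

variable (f : C(I, I)) (a η : ℝ)

/-- the zigzag map moved towards the diagonal -/
noncomputable def plat (x : ℝ) : ℝ :=
  unf f a η x - clampK (a / 64 * chi (x / η)) (unf f a η x - x)

/-- the value of the regularisation at the end of the first half-lap -/
noncomputable def bas : ℝ := lip f (a / η) (η / 2)

/-- the centre of the coded piece -/
noncomputable def mid : ℝ := max (a / 2) (min (bas f a η) (1 - a / 2))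

/-- the unfolded coded map -/
noncomputable def cu (e : W) (x : ℝ) : ℝ :=
  (mid f a η + a / 2 - a * code e (4 * x / η)) +
    (bas f a η + 3 / 2 * a - mid f a η) * cl01 (4 * x / η - 1) +
    (plat f a η (max x (η / 2)) - (bas f a η + a))

/-- the coded map -/
noncomputable def cz (e : W) (x : ℝ) : ℝ := fold (cu f a η e x)

/-- admissible parameters with a small mesh -/
def Adm' : Prop := Adm f a η ∧ η ≤ a / 128

end Pool.Agent.Itv
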