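import Pool.Agent.Lib.Itv.Basic

set_option autoImplicit false

/-!
Expansion of the coded unfolded map on its pieces.
-/

open Set Filter Topology
open scoped unitInterval

namespace Pool.Agent.Itv

open Pool.Agent.Lib.Pc7f692

variable {f : C(I, I)} {a η : ℝ}

theorem Adm'.L_pos (h : Adm' f a η) : 0 < a / η := div_pos h.a_pos h.pos

theorem lip_diff (h : Adm' f a η) {x y : ℝ} (hxy : x ≤ y) :
    |lip f (a / η) y - lip f (a / η) x| ≤ a / η * (y - x) := by
  have := lip_lipschitz f h.L_pos.le y x
  rwa [abs_of_nonneg (by linarith : 0 ≤ y - x)] at this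

theorem unf_up (h : Adm' f a η) (k : ℕ) {x y : ℝ} (hx : (k : ℝ) * η ≤ x) (hxy : x ≤ y)
    (hy : y ≤ k * η + η / 2) : 3 * (a / η) * (y - x) ≤ unf f a η y - unf f a η x := by
  have hη := h.pos
  have h1 := lip_diff h hxy
  rw [abs_le] at h1
  have e1 : (k : ℝ) ≤ x / η := by rw [le_div_iff₀ hη]; linarith
  have e2 : y / η ≤ k + 1 / 2 := by rw [div_le_iff₀ hη]; linarith
  have e3 : x / η ≤ y / η := by gcongr
  unfold unf
  rw [zig_up k e1 (e3.trans e2), zig_up k (e1.trans e3) e2]
  have e4 : a * (4 * (y / η - k) - 1) - a * (4 * (x / η - k) - 1) = 4 * (a / η) * (y - x) := by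
    field_simp
    ring
  nlinarith [h1.1]

theorem unf_down (h : Adm' f a η) (k : ℕ) {x y : ℝ} (hx : (k : ℝ) * η + η / 2 ≤ x) (hxy : x ≤ y)
    (hy : y ≤ k * η + η) : 3 * (a / η) * (y - x) ≤ unf f a η x - unf f a η y := by
  have hη := h.pos
  have h1 := lip_diff h hxy
  rw [abs_le] at h1
  have e1 : (k : ℝ) + 1 / 2 ≤ x / η := by rw [le_div_iff₀ hη]; linarith
  have e2 : y / η ≤ k + 1 := by rw [div_le_iff₀ hη]; linarith
  have e3 : x / η ≤ y / η := by gcongr
  unfold unf
  rw [zig_down k e1 (e3.trans e2), zig_down k (e1.trans e3) e2]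
  have e4 : a * (3 - 4 * (x / η - k)) - a * (3 - 4 * (y / η - k)) = 4 * (a / η) * (y - x) := by
    field_simp
    ring
  nlinarith [h1.2]

theorem plat_of_chi {x : ℝ} (hx : chi (x / η) = 0) :
    plat f a η x = unf f a η x := by
  unfold plat
  rw [hx, mul_zero]
  have e2 : clampK 0 (unf f a η x - x) = 0 := by
    have := abs_clampK_le (le_refl (0 : ℝ)) (unf f a η x - x)
    exact abs_eq_zero.1 (le_antisymm this (abs_nonneg _))
  rw [e2, sub_zero]

/-- the first quarter -/
theorem exp_code (h : Adm' f a η) (e : W) {x y : ℝ} (hx : 0 ≤ x) (hxy : x ≤ y) (hy : y ≤ η / 4) :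
    2 * (a / η) * (y - x) ≤ cu f a η e x - cu f a η e y := by
  have hη := h.pos
  have ha := h.a_pos
  rw [cu_code h e hy, cu_code h e (hxy.trans hy)]
  have h1 := code_slope e (s := 4 * x / η) (s' := 4 * y / η) (by positivity) (by gcongr)
    (by rw [div_le_one hη]; linarith)
  have e1 : a * ((4 * y / η - 4 * x / η) / 2) = 2 * (a / η) * (y - x) := by
    field_simp
    ring
  nlinarith

/-- the second quarter -/
theorem exp_join (h : Adm' f a η) (e : W) {x y : ℝ} (hx : η / 4 ≤ x) (hxy : x ≤ y)
    (hy : y ≤ η / 2) : 2 * (a / η) * (y - x) ≤ cu f a η e y - cu f a η e x := by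
  have hη := h.pos
  have ha := h.a_pos
  obtain ⟨-, -, -, h3⟩ := h.mid_bounds
  rw [cu_join h e (hx.trans hxy) hy, cu_join h e hx (hxy.trans hy)]
  have e1 : a * (4 * y / η - 4 * x / η) = 4 * (a / η) * (y - x) := by
    field_simp
  have e2 : 0 ≤ 4 * y / η - 4 * x / η := by
    rw [sub_nonneg]
    gcongr
  have e3 : 0 ≤ a / η * (y - x) := mul_nonneg h.L_pos.le (by linarith)
  have e4 : 0 ≤ (bas f a η + a / 2 - mid f a η) * (4 * y / η - 4 * x / η) :=
    mul_nonneg (by linarith) e2
  nlinarith

/-- the decreasing half-laps -/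
theorem exp_down (h : Adm' f a η) (e : W) (k : ℕ) {x y : ℝ} (hx : (k : ℝ) * η + η / 2 ≤ x)
    (hxy : x ≤ y) (hy : y ≤ k * η + η) :
    2 * (a / η) * (y - x) ≤ cu f a η e x - cu f a η e y := by
  have hη := h.pos
  have hk : 0 ≤ (k : ℝ) * η := by positivity
  rw [cu_plat h e (by linarith), cu_plat h e (by linarith), plat_of_chi, plat_of_chi]
  · have := unf_down h k hx hxy hy
    have e3 : 0 ≤ a / η * (y - x) := mul_nonneg h.L_pos.le (by linarith)
    linarith
  · apply chi_right k
    · rw [le_div_iff₀ hη]; nlinarith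
    · rw [div_le_iff₀ hη]; linarith
  · apply chi_right k
    · rw [le_div_iff₀ hη]; nlinarith
    · rw [div_le_iff₀ hη]; linarith

/-- the beginning of an increasing half-lap -/
theorem exp_left (h : Adm' f a η) (e : W) (k : ℕ) (hk : 1 ≤ k) {x y : ℝ} (hx : (k : ℝ) * η ≤ x)
    (hxy : x ≤ y) (hy : y ≤ k * η + η / 16) :
    2 * (a / η) * (y - x) ≤ cu f a η e y - cu f a η e x := by
  have hη := h.pos
  have hk' : η ≤ (k : ℝ) * η := by
    have : (1 : ℝ) ≤ k := by exact_mod_cast hk
    nlinarith
  rw [cu_plat h e (by linarith), cu_plat h e (by linarith), plat_of_chi, plat_of_chi]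
  · have := unf_up h k hx hxy (by linarith)
    have e3 : 0 ≤ a / η * (y - x) := mul_nonneg h.L_pos.le (by linarith)
    linarith
  · apply chi_left k
    · rw [le_div_iff₀ hη]; linarith
    · rw [div_le_iff₀ hη]; linarith
  · apply chi_left k
    · rw [le_div_iff₀ hη]; linarith
    · rw [div_le_iff₀ hη]; linarith

/-- the end of an increasing half-lap -/
theorem exp_right (h : Adm' f a η) (e : W) (k : ℕ) (hk : 1 ≤ k) {x y : ℝ}
    (hx : (k : ℝ) * η + 7 / 16 * η ≤ x) (hxy : x ≤ y) (hy : y ≤ k * η + η / 2) :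
    2 * (a / η) * (y - x) ≤ cu f a η e y - cu f a η e x := by
  have hη := h.pos
  have hk' : η ≤ (k : ℝ) * η := by
    have : (1 : ℝ) ≤ k := by exact_mod_cast hk
    nlinarith
  rw [cu_plat h e (by linarith), cu_plat h e (by linarith), plat_of_chi, plat_of_chi]
  · have := unf_up h k (by linarith) hxy (by linarith)
    have e3 : 0 ≤ a / η * (y - x) := mul_nonneg h.L_pos.le (by linarith)
    linarith
  · apply chi_right k
    · rw [le_div_iff₀ hη]; linarith
    · rw [div_le_iff₀ hη]; linarith
  · apply chi_right k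
    · rw [le_div_iff₀ hη]; linarith
    · rw [div_le_iff₀ hη]; linarith

/-- an increasing half-lap: either the interval is contained in its image, or it is expanded -/
theorem exp_up (h : Adm' f a η) (e : W) (k : ℕ) (hk : 1 ≤ k) {x y : ℝ} (hx : (k : ℝ) * η ≤ x)
    (hxy : x ≤ y) (hy : y ≤ k * η + η / 2) :
    (cu f a η e x ≤ x ∧ y ≤ cu f a η e y) ∨
      2 * (a / η) * (y - x) ≤ cu f a η e y - cu f a η e x := by
  have hη := h.pos
  have ha := h.a_pos
  have hL := h.L_ge
  have hk' : η ≤ (k : ℝ) * η := by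
    have : (1 : ℝ) ≤ k := by exact_mod_cast hk
    nlinarith
  rw [cu_plat h e (by linarith), cu_plat h e (by linarith)]
  have h1 := unf_up h k hx hxy hy
  have hcx := chi_nonneg (x / η)
  have hcy := chi_nonneg (y / η)
  have e1 : (k : ℝ) ≤ x / η := by rw [le_div_iff₀ hη]; linarith
  have e2 : y / η ≤ k + 1 / 2 := by rw [div_le_iff₀ hη]; linarith
  have e3 : x / η ≤ y / η := by gcongr
  have h2 := chi_lip k e1 (e3.trans e2) (e1.trans e3) e2
  rw [abs_of_nonpos (by linarith : x / η - y / η ≤ 0), abs_le] at h2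
  set p : ℝ := a / 64 * chi (x / η) with hp
  set q : ℝ := a / 64 * chi (y / η) with hq
  have hp0 : 0 ≤ p := by positivity
  have hq0 : 0 ≤ q := by positivity
  have e4 : a / 64 * (16 * (y / η - x / η)) = a / η * (y - x) / 4 := by
    field_simp
    ring
  have hpq : p - q ≤ a / η * (y - x) / 4 := by
    have : a / 64 * (chi (x / η) - chi (y / η)) ≤ a / 64 * (16 * (y / η - x / η)) :=
      mul_le_mul_of_nonneg_left (by linarith [h2.2]) (by positivity)
    rw [e4] at this
    rw [hp, hq]
    linarith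
  have hqp : q - p ≤ a / η * (y - x) / 4 := by
    have : a / 64 * (chi (y / η) - chi (x / η)) ≤ a / 64 * (16 * (y / η - x / η)) :=
      mul_le_mul_of_nonneg_left (by linarith [h2.1]) (by positivity)
    rw [e4] at this
    rw [hp, hq]
    linarith
  have hyx : 0 ≤ y - x := by linarith
  have hLyx : 128 * (y - x) ≤ a / η * (y - x) := mul_le_mul_of_nonneg_right hL hyx
  have hplx : plat f a η x = unf f a η x - clampK p (unf f a η x - x) := rfl
  have hply : plat f a η y = unf f a η y - clampK q (unf f a η y - y) := rfl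
  have cl_low : ∀ κ z : ℝ, 0 ≤ κ → z ≤ -κ → clampK κ z = -κ := by
    intro κ z hκ hz
    unfold clampK
    rw [min_eq_right (by linarith), max_eq_left hz]
  have cl_high : ∀ κ z : ℝ, 0 ≤ κ → κ ≤ z → clampK κ z = κ := by
    intro κ z hκ hz
    unfold clampK
    rw [min_eq_left hz, max_eq_right (by linarith)]
  rcases le_total (unf f a η y - y) (-q) with c1 | c1
  · right
    have c2 : unf f a η x - x ≤ -p := by nlinarith
    rw [hplx, hply, cl_low q _ hq0 c1, cl_low p _ hp0 c2]
    nlinarith
  · rcases le_total p (unf f a η x - x) with c2 | c2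
    · right
      have c3 : q ≤ unf f a η y - y := by nlinarith
      rw [hplx, hply, cl_high q _ hq0 c3, cl_high p _ hp0 c2]
      nlinarith
    · left
      constructor
      · rw [hplx]
        rcases le_total (unf f a η x - x) 0 with c3 | c3
        · have := (clampK_nonpos hp0 c3).1
          linarith
        · rw [clampK_eq (by rw [abs_of_nonneg c3]; exact c2)]
          linarith
      · rw [hply]
        rcases le_total 0 (unf f a η y - y) with c3 | c3
        · have := (clampK_nonneg hq0 c3).2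
          linarith
        · rw [clampK_eq (by rw [abs_of_nonpos c3]; linarith)]
          linarith

end Pool.Agent.Itv
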