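import Pool.Agent.Lib.Itv.Exp

set_option autoImplicit false

/-!
An interval that contains no half-lap `H j`, `j ≥ 1`, is not longer than its image.
-/

open Set Filter Topology
open scoped unitInterval

namespace Pool.Agent.Itv

open Pool.Agent.Lib.Pc7f692

variable {f : C(I, I)} {a η : ℝ}

/-- images of expanded pieces -/
theorem piece (h : Adm' f a η) (e : W) {x y : ℝ} (hx : 0 ≤ x) (hxy : x ≤ y) (hy : y ≤ 1)
    (hexp : 2 * (a / η) * (y - x) ≤ |cu f a η e y - cu f a η e x|) :
    ∃ c d : ℝ, 0 ≤ c ∧ d ≤ 1 ∧ 2 * (a / η) * (y - x) / 3 ≤ d - c ∧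
      Icc c d ⊆ cz f a η e '' Icc x y := by
  have hη := h.pos
  have hcont : ContinuousOn (cu f a η e) (uIcc x y) := (continuous_cu hη.ne' e).continuousOn
  have hivt := intermediate_value_uIcc hcont
  rw [uIcc_of_le hxy] at hivt
  set u := min (cu f a η e x) (cu f a η e y) with hu
  set v := max (cu f a η e x) (cu f a η e y) with hv
  have hvu : v - u = |cu f a η e y - cu f a η e x| := by
    rw [hu, hv, max_sub_min_eq_abs]
  have hxI : x ∈ I := ⟨hx, hxy.trans hy⟩
  have hyI : y ∈ I := ⟨hx.trans hxy, hy⟩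
  have hb1 := cu_mem h e ⟨x, hxI⟩
  have hb2 := cu_mem h e ⟨y, hyI⟩
  obtain ⟨c, d, hc0, hd1, hcd, himg⟩ := fold_image (u := u) (v := v)
    (le_min hb1.1 hb2.1) min_le_max (max_le hb1.2 hb2.2)
  refine ⟨c, d, hc0, hd1, by linarith, ?_⟩
  intro s hs
  obtain ⟨z, hz, rfl⟩ := himg hs
  obtain ⟨w, hw, rfl⟩ := hivt hz
  exact ⟨w, hw, rfl⟩

theorem grow (h : Adm' f a η) (e : W) {p q : ℝ} (hp : 0 ≤ p) (hpq : p < q) (hq : q ≤ 1)
    (hno : ∀ j : ℕ, 1 ≤ j → ¬ (p ≤ j * (η / 2) ∧ ((j : ℝ) + 1) * (η / 2) ≤ q)) :
    ∃ c d : ℝ, 0 ≤ c ∧ d ≤ 1 ∧ q - p ≤ d - c ∧ Icc c d ⊆ cz f a η e '' Icc p q := by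
  have hη := h.pos
  have ha := h.a_pos
  have hL := h.L_ge
  have hηa := h.eta_le
  have hη2 : 0 < η / 2 := by positivity
  -- long pieces
  have big : ∀ x y : ℝ, p ≤ x → x ≤ y → y ≤ q →
      2 * (a / η) * (y - x) ≤ |cu f a η e y - cu f a η e x| →
      3 * (q - p) ≤ 2 * (a / η) * (y - x) →
      ∃ c d : ℝ, 0 ≤ c ∧ d ≤ 1 ∧ q - p ≤ d - c ∧ Icc c d ⊆ cz f a η e '' Icc p q := by
    intro x y h1 h2 h3 h4 h5
    obtain ⟨c, d, hc, hd, hcd, hsub⟩ := piece h e (hp.trans h1) h2 (h3.trans hq) h4
    exact ⟨c, d, hc, hd, by linarith, hsub.trans (image_mono (Icc_subset_Icc h1 h3))⟩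
  have long : ∀ x y : ℝ, p ≤ x → x ≤ y → y ≤ q → q - p ≤ 3 * (y - x) →
      2 * (a / η) * (y - x) ≤ |cu f a η e y - cu f a η e x| →
      ∃ c d : ℝ, 0 ≤ c ∧ d ≤ 1 ∧ q - p ≤ d - c ∧ Icc c d ⊆ cz f a η e '' Icc p q := by
    intro x y h1 h2 h3 h5 h4
    refine big x y h1 h2 h3 h4 ?_
    have : 128 * (y - x) ≤ a / η * (y - x) := mul_le_mul_of_nonneg_right hL (by linarith)
    nlinarith
  -- the half-lap containing `p`
  obtain ⟨n, hn1, hn2⟩ : ∃ n : ℕ, (n : ℝ) * (η / 2) ≤ p ∧ p < ((n : ℝ) + 1) * (η / 2) := by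
    refine ⟨⌊p / (η / 2)⌋₊, ?_, ?_⟩
    · have := Nat.floor_le (by positivity : 0 ≤ p / (η / 2))
      rwa [le_div_iff₀ hη2] at this
    · have := Nat.lt_floor_add_one (p / (η / 2))
      rwa [div_lt_iff₀ hη2] at this
  have hq2 : q < ((n : ℝ) + 1 + 1) * (η / 2) := by
    by_contra hcon
    push Not at hcon
    apply hno (n + 1) (by omega)
    push_cast
    exact ⟨hn2.le, hcon⟩
  have hlen : q - p < η := by linarith
  have sixteenth : ∀ x y : ℝ, p ≤ x → x ≤ y → y ≤ q → y - x = η / 16 →
      2 * (a / η) * (y - x) ≤ |cu f a η e y - cu f a η e x| →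
      ∃ c d : ℝ, 0 ≤ c ∧ d ≤ 1 ∧ q - p ≤ d - c ∧ Icc c d ⊆ cz f a η e '' Icc p q := by
    intro x y h1 h2 h3 h5 h4
    refine big x y h1 h2 h3 h4 ?_
    rw [h5]
    have : 2 * (a / η) * (η / 16) = a / 8 := by
      field_simp
      ring
    rw [this]
    linarith
  rcases Nat.eq_zero_or_pos n with hn0 | hn0
  · -- near the left end
    subst hn0
    push_cast at hn1 hn2 hq2
    rcases le_total q (η / 4) with c1 | c1
    · refine long p q le_rfl hpq.le le_rfl (by linarith) ?_
      rw [abs_sub_comm]
      exact (exp_code h e hp hpq.le c1).trans (le_abs_self _)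
    · rcases le_total q (η / 2) with c2 | c2
      · rcases le_total (η / 4) p with c3 | c3
        · refine long p q le_rfl hpq.le le_rfl (by linarith) ?_
          exact (exp_join h e c3 hpq.le c2).trans (le_abs_self _)
        · rcases le_total (q - p) (3 * (η / 4 - p)) with c4 | c4
          · refine long p (η / 4) le_rfl c3 c1 c4 ?_
            rw [abs_sub_comm]
            exact (exp_code h e hp c3 le_rfl).trans (le_abs_self _)
          · refine long (η / 4) q c3 c1 le_rfl (by linarith) ?_
            exact (exp_join h e le_rfl c1 c2).trans (le_abs_self _)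
      · have hd : 2 * (a / η) * (q - η / 2) ≤ |cu f a η e q - cu f a η e (η / 2)| := by
          rw [abs_sub_comm]
          refine (exp_down h e 0 (x := η / 2) (y := q) ?_ c2 ?_).trans (le_abs_self _)
          · push_cast; linarith
          · push_cast; linarith
        rcases le_total (q - p) (3 * (q - η / 2)) with c5 | c5
        · exact long (η / 2) q (by linarith) c2 le_rfl c5 hd
        · rcases le_total (η / 4) p with c3 | c3
          · refine long p (η / 2) le_rfl (by linarith) c2 (by linarith) ?_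
            exact (exp_join h e c3 (by linarith) le_rfl).trans (le_abs_self _)
          · rcases le_total (q - p) (3 * (η / 4 - p)) with c4 | c4
            · refine long p (η / 4) le_rfl c3 (by linarith) c4 ?_
              rw [abs_sub_comm]
              exact (exp_code h e hp c3 le_rfl).trans (le_abs_self _)
            · refine long (η / 4) (η / 2) c3 (by linarith) c2 (by linarith) ?_
              exact (exp_join h e le_rfl (by linarith) le_rfl).trans (le_abs_self _)
  · rcases Nat.even_or_odd' n with ⟨k, hk | hk⟩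
    · -- `p` is in an increasing half-lap
      have hk1 : 1 ≤ k := by omega
      subst hk
      push_cast at hn1 hn2 hq2
      rcases le_total q ((k : ℝ) * η + η / 2) with c1 | c1
      · rcases exp_up h e k hk1 (x := p) (y := q) (by linarith) hpq.le c1 with c2 | c2
        · -- contained in its image
          refine ⟨p, q, hp, hq, le_rfl, ?_⟩
          intro s hs
          have hcont : ContinuousOn (cu f a η e) (Icc p q) := (continuous_cu hη.ne' e).continuousOn
          obtain ⟨w, hw, hws⟩ := intermediate_value_Icc hpq.le hcont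
            (show s ∈ Icc (cu f a η e p) (cu f a η e q) from
              ⟨c2.1.trans hs.1, hs.2.trans c2.2⟩)
          refine ⟨w, hw, ?_⟩
          unfold cz
          rw [hws, fold_of_mem (hp.trans hs.1) (hs.2.trans hq)]
        · exact long p q le_rfl hpq.le le_rfl (by linarith) (c2.trans (le_abs_self _))
      · rcases le_total p ((k : ℝ) * η + 7 / 16 * η) with c2 | c2
        · refine sixteenth ((k : ℝ) * η + 7 / 16 * η) ((k : ℝ) * η + η / 2) c2 (by linarith) c1
            (by ring) ?_
          exact (exp_right h e k hk1 le_rfl (by linarith) le_rfl).trans (le_abs_self _)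
        · rcases le_total (q - p) (3 * ((k : ℝ) * η + η / 2 - p)) with c3 | c3
          · refine long p ((k : ℝ) * η + η / 2) le_rfl (by linarith) c1 c3 ?_
            exact (exp_right h e k hk1 c2 (by linarith) le_rfl).trans (le_abs_self _)
          · refine long ((k : ℝ) * η + η / 2) q (by linarith) c1 le_rfl (by linarith) ?_
            rw [abs_sub_comm]
            exact (exp_down h e k le_rfl c1 (by linarith)).trans (le_abs_self _)
    · -- `p` is in a decreasing half-lap
      subst hk
      push_cast at hn1 hn2 hq2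
      rcases le_total q ((k : ℝ) * η + η) with c1 | c1
      · refine long p q le_rfl hpq.le le_rfl (by linarith) ?_
        rw [abs_sub_comm]
        exact (exp_down h e k (by linarith) hpq.le c1).trans (le_abs_self _)
      · have hpk : p ≤ (k : ℝ) * η + η := by linarith
        have hk1 : 1 ≤ k + 1 := by omega
        have ek : ((k + 1 : ℕ) : ℝ) * η = k * η + η := by push_cast; ring
        rcases le_total ((k : ℝ) * η + η + η / 16) q with c2 | c2
        · refine sixteenth ((k : ℝ) * η + η) ((k : ℝ) * η + η + η / 16) hpk (by linarith) c2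
            (by ring) ?_
          exact (exp_left h e (k + 1) hk1 (by rw [ek]) (by linarith) (by rw [ek])).trans
            (le_abs_self _)
        · rcases le_total (q - p) (3 * (q - ((k : ℝ) * η + η))) with c3 | c3
          · refine long ((k : ℝ) * η + η) q hpk c1 le_rfl c3 ?_
            exact (exp_left h e (k + 1) hk1 (by rw [ek]) c1 (by rw [ek]; exact c2)).trans
              (le_abs_self _)
          · refine long p ((k : ℝ) * η + η) le_rfl hpk c1 (by linarith) ?_
            rw [abs_sub_comm]
            exact (exp_down h e k (by linarith) hpk le_rfl).trans (le_abs_self _)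

end Pool.Agent.Itv
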