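import Pool.Agent.Lib.Itv.Plateau

set_option autoImplicit false

/-!
The coded operator `N : C(I, I) × I × W → C(I, I)`.
-/

open Set Filter Topology
open scoped unitInterval

namespace Pool.Agent.Itv

open Pool.Agent.Lib.Pc7f692

theorem adm'_mesh (p : Par) : Adm' p.1.1 (amp p) (mesh p / 8) := by
  obtain ⟨ha, ha1, hη, hη1, hosc⟩ := adm_mesh p
  refine ⟨⟨ha, ha1, by positivity, by linarith, ?_⟩, by linarith⟩
  intro x y hxy
  apply hosc
  apply hxy.trans
  gcongr
  linarith

/-- the coded operator for positive parameters -/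
noncomputable def copr (z : Par × W) : C(I, I) := cmap (adm'_mesh z.1) z.2

theorem continuous_copr : Continuous copr := by
  apply ContinuousMap.continuous_of_continuous_uncurry
  have hm : Continuous fun z : (Par × W) × I => mesh z.1.1 / 8 :=
    (mesh.continuous.comp (continuous_fst.comp continuous_fst)).div_const 8
  have ha : Continuous fun z : (Par × W) × I => amp z.1.1 :=
    continuous_amp.comp (continuous_fst.comp continuous_fst)
  have hx : Continuous fun z : (Par × W) × I => (z.2 : ℝ) :=
    continuous_subtype_val.comp continuous_snd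
  have hf : Continuous fun z : (Par × W) × I => z.1.1.1.1 := by fun_prop
  have he : Continuous fun z : (Par × W) × I => z.1.2 := by fun_prop
  have hne : ∀ z : (Par × W) × I, mesh z.1.1 / 8 ≠ 0 := fun z => (adm'_mesh z.1.1).pos.ne'
  have h1 : Continuous fun z : (Par × W) × I => amp z.1.1 / (mesh z.1.1 / 8) := ha.div hm hne
  -- the regularisation
  have hlip : ∀ X : (Par × W) × I → ℝ, Continuous X → Continuous fun z : (Par × W) × I =>
      lip z.1.1.1.1 (amp z.1.1 / (mesh z.1.1 / 8)) (X z) := by
    intro X hX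
    exact continuous_lip.comp (hf.prodMk (h1.prodMk hX))
  have hbas : Continuous fun z : (Par × W) × I =>
      bas z.1.1.1.1 (amp z.1.1) (mesh z.1.1 / 8) := hlip _ (hm.div_const 2)
  have hmid : Continuous fun z : (Par × W) × I =>
      mid z.1.1.1.1 (amp z.1.1) (mesh z.1.1 / 8) := by
    unfold mid
    exact (ha.div_const 2).max (hbas.min (continuous_const.sub (ha.div_const 2)))
  have hunf : ∀ X : (Par × W) × I → ℝ, Continuous X → Continuous fun z : (Par × W) × I =>
      unf z.1.1.1.1 (amp z.1.1) (mesh z.1.1 / 8) (X z) := by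
    intro X hX
    unfold unf
    exact (hlip X hX).add (ha.mul (continuous_zig.comp (hX.div hm hne)))
  have hplat : ∀ X : (Par × W) × I → ℝ, Continuous X → Continuous fun z : (Par × W) × I =>
      plat z.1.1.1.1 (amp z.1.1) (mesh z.1.1 / 8) (X z) := by
    intro X hX
    have h2 := hunf X hX
    have h3 : Continuous fun z : (Par × W) × I => chi (X z / (mesh z.1.1 / 8)) :=
      continuous_chi.comp (hX.div hm hne)
    have h4 : Continuous fun z : (Par × W) × I => amp z.1.1 / 64 * chi (X z / (mesh z.1.1 / 8)) :=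
      (ha.div_const 64).mul h3
    unfold plat clampK
    exact h2.sub (h4.neg.max (h4.min (h2.sub hX)))
  have h4x : Continuous fun z : (Par × W) × I => 4 * (z.2 : ℝ) / (mesh z.1.1 / 8) :=
    (continuous_const.mul hx).div hm hne
  have h : Continuous fun z : (Par × W) × I =>
      cz z.1.1.1.1 (amp z.1.1) (mesh z.1.1 / 8) z.1.2 (z.2 : ℝ) := by
    unfold cz cu
    apply continuous_fold.comp
    refine ((((hmid.add (ha.div_const 2)).sub (ha.mul ?_))).add
      (((hbas.add (continuous_const.mul ha)).sub hmid).mul ?_)).add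
      ((hplat _ (hx.max (hm.div_const 2))).sub (hbas.add ha))
    · exact continuous_code.comp (he.prodMk h4x)
    · exact continuous_cl01.comp (h4x.sub continuous_const)
  exact h.subtype_mk _

open Classical in
/-- the coded operator -/
noncomputable def cop (z : C(I, I) × I × W) : C(I, I) :=
  if h : 0 < (z.2.1 : ℝ) / 2 then copr (⟨(z.1, (z.2.1 : ℝ) / 2), h⟩, z.2.2) else z.1

theorem cop_spec (f : C(I, I)) (t : I) (e : W) (ht : 0 < (t : ℝ)) :
    ∃ (η : ℝ) (h : Adm' f ((t : ℝ) / 2) η), cop (f, t, e) = cmap h e := by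
  have ht2 : 0 < (t : ℝ) / 2 := by linarith
  have hamp : amp ⟨(f, (t : ℝ) / 2), ht2⟩ = (t : ℝ) / 2 := min_eq_left (by linarith [t.2.2])
  have h := adm'_mesh ⟨(f, (t : ℝ) / 2), ht2⟩
  have h' : Adm' f ((t : ℝ) / 2) (mesh ⟨(f, (t : ℝ) / 2), ht2⟩ / 8) := by
    rw [hamp] at h
    exact h
  refine ⟨_, h', ?_⟩
  unfold cop
  rw [dif_pos ht2]
  unfold copr
  apply ContinuousMap.ext
  intro x
  apply Subtype.ext
  rw [cmap_coe, cmap_coe, hamp]

theorem dist_cop (f : C(I, I)) (t : I) (e : W) : dist (cop (f, t, e)) f ≤ t := by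
  rcases t.2.1.lt_or_eq with ht | ht
  · obtain ⟨η, h, he⟩ := cop_spec f t e ht
    rw [he, ContinuousMap.dist_le t.2.1]
    intro x
    have h1 := cz_close h (by linarith [t.2.2]) e x
    have h2 : dist (cmap h e x) (f x) = |cz f ((t : ℝ) / 2) η e x - f x| := rfl
    rw [h2]
    linarith
  · unfold cop
    rw [dif_neg (by rw [← ht]; norm_num), dist_self]
    exact t.2.1

theorem continuous_cop : Continuous cop := by
  rw [continuous_iff_continuousAt]
  rintro ⟨f, t, e⟩
  rcases t.2.1.lt_or_eq with ht | ht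
  · have hopen : IsOpen {z : C(I, I) × I × W | 0 < (z.2.1 : ℝ) / 2} :=
      isOpen_lt continuous_const (by fun_prop)
    have hon : ContinuousOn cop {z : C(I, I) × I × W | 0 < (z.2.1 : ℝ) / 2} := by
      rw [continuousOn_iff_continuous_domRestrict]
      have heq : ({z : C(I, I) × I × W | 0 < (z.2.1 : ℝ) / 2}.domRestrict cop) =
          fun w : {z : C(I, I) × I × W | 0 < (z.2.1 : ℝ) / 2} =>
            copr (⟨(w.1.1, (w.1.2.1 : ℝ) / 2), w.2⟩, w.1.2.2) := by
        funext w
        have hw : 0 < (w.1.2.1 : ℝ) / 2 := w.2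
        show cop w.1 = _
        unfold cop
        rw [dif_pos hw]
      rw [heq]
      apply continuous_copr.comp
      refine Continuous.prodMk ?_ (by fun_prop)
      apply Continuous.subtype_mk
      fun_prop
    exact hon.continuousAt (hopen.mem_nhds (by show 0 < (t : ℝ) / 2; linarith))
  · have hval : cop (f, t, e) = f := by
      unfold cop
      rw [dif_neg (by rw [← ht]; norm_num)]
    rw [ContinuousAt, hval, tendsto_iff_dist_tendsto_zero]
    have hb : Tendsto (fun w : C(I, I) × I × W => (w.2.1 : ℝ) + dist w.1 f) (𝓝 (f, t, e))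
        (𝓝 0) := by
      have h1 : Continuous fun w : C(I, I) × I × W => (w.2.1 : ℝ) + dist w.1 f := by fun_prop
      have h2 := h1.tendsto (f, t, e)
      simp only [dist_self, ← ht, add_zero] at h2
      exact h2
    refine squeeze_zero (fun _ => dist_nonneg) ?_ hb
    rintro ⟨f', t', e'⟩
    have h1 := dist_cop f' t' e'
    have h2 := dist_triangle (cop (f', t', e')) f' f
    show dist (cop (f', t', e')) f ≤ (t' : ℝ) + dist f' f
    linarith

/-! ### reading the code -/

theorem continuous_ext' : Continuous fun p : C(I, I) × ℝ => ext p.1 p.2 := by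
  unfold Pool.Agent.Lib.Pc7f692.ext
  have : Continuous fun p : C(I, I) × ℝ => projIcc (0 : ℝ) 1 zero_le_one p.2 :=
    continuous_projIcc.comp continuous_snd
  fun_prop

variable {f : C(I, I)} {a η : ℝ}

/-- the coded piece -/
theorem cmap_code (h : Adm' f a η) (e : W) {s : ℝ} (h0 : 0 ≤ s) (h1 : s ≤ 1) :
    ext (cmap h e) (s * (η / 4)) = mid f a η + a / 2 - a * code e s := by
  have hη := h.pos
  have hη1 := h.eta_le_one
  have ha := h.a_pos
  have hx1 : s * (η / 4) ≤ η / 4 := mul_le_of_le_one_left (by positivity) h1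
  have hx : s * (η / 4) ∈ I := ⟨by positivity, by linarith⟩
  rw [ext_of_mem _ hx, cmap_coe]
  unfold cz
  obtain ⟨m1, m2, -, -⟩ := h.mid_bounds
  obtain ⟨c1, c2⟩ := cu_code_mem h e hx1
  have e1 : 4 * (s * (η / 4)) / η = s := by
    field_simp
  show fold (cu f a η e (s * (η / 4))) = _
  rw [fold_of_mem (by linarith) (by linarith), cu_code h e hx1, e1]

/-- beyond the coded piece the map is at least the value at its end -/
theorem cmap_join (h : Adm' f a η) (e : W) {x : ℝ} (h0 : η / 4 ≤ x) (h1 : x ≤ η / 2) :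
    mid f a η - a / 2 ≤ ext (cmap h e) x := by
  have hη := h.pos
  have hη1 := h.eta_le_one
  have ha := h.a_pos
  have hx : x ∈ I := ⟨by linarith, by linarith⟩
  rw [ext_of_mem _ hx, cmap_coe]
  unfold cz
  obtain ⟨m1, m2, -, -⟩ := h.mid_bounds
  obtain ⟨c1, c2⟩ := cu_join_mem h e h0 h1
  have hb := h.bas_mem.2
  show _ ≤ fold (cu f a η e x)
  rcases le_total (cu f a η e x) 1 with h2 | h2
  · rw [fold_of_mem (by linarith) h2]
    exact c1
  · rw [fold_big h2]
    linarith

theorem ext_close {g g' : C(I, I)} {ε : ℝ} (h : dist g g' ≤ ε) (x : ℝ) :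
    |ext g x - ext g' x| ≤ ε := by
  have h1 : dist (g (projIcc 0 1 zero_le_one x)) (g' (projIcc 0 1 zero_le_one x)) ≤ dist g g' :=
    ContinuousMap.dist_apply_le_dist _
  exact h1.trans h

theorem cop_reads (x : ℕ → C(I, I)) (t : ℕ → I) (e : ℕ → W) (τ : ℝ) (y : C(I, I)) (hτ : 0 < τ)
    (ht : ∀ k, τ ≤ t k) (hlim : Tendsto (fun k => cop (x k, t k, e k)) atTop (𝓝 y)) :
    ∃ e' : W, Tendsto e atTop (𝓝 e') := by
  have hspec := fun k => cop_spec (x k) (t k) (e k) (hτ.trans_le (ht k))
  choose η hadm hcop using hspec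
  set g : ℕ → C(I, I) := fun k => cop (x k, t k, e k) with hg
  set m : ℕ → ℝ := fun k => η k / 4 with hm
  set α : ℝ := τ / 2 with hα
  have hα0 : 0 < α := by positivity
  have hαk : ∀ k, α ≤ (t k : ℝ) / 2 := fun k => by linarith [ht k]
  have hm0 : ∀ k, 0 < m k := fun k => by
    have := (hadm k).pos
    rw [hm]
    simp only
    linarith
  have hm1 : ∀ k, m k ≤ 1 := fun k => by
    have := (hadm k).eta_le_one
    rw [hm]
    simp only
    linarith
  -- the coded piece
  have hcode : ∀ k, ∀ s : ℝ, 0 ≤ s → s ≤ 1 →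
      ext (g k) (s * m k) = mid (x k) ((t k : ℝ) / 2) (η k) + (t k : ℝ) / 2 / 2
        - (t k : ℝ) / 2 * code (e k) s := by
    intro k s h0 h1
    have := cmap_code (hadm k) (e k) h0 h1
    rw [hg]
    simp only
    rw [hcop k]
    exact this
  have hdiff : ∀ k, ∀ s : ℝ, 0 ≤ s → s ≤ 1 →
      ext (g k) 0 - ext (g k) (s * m k) = (t k : ℝ) / 2 * code (e k) s := by
    intro k s h0 h1
    have h2 := hcode k 0 le_rfl zero_le_one
    rw [zero_mul, code_of_nonpos _ le_rfl] at h2
    rw [h2, hcode k s h0 h1]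
    ring
  -- beyond
  have hjoin : ∀ k, ∀ z : ℝ, m k ≤ z → z ≤ 2 * m k → ext (g k) (m k) ≤ ext (g k) z := by
    intro k z h0 h1
    have h2 := cmap_join (hadm k) (e k) (x := z) h0 (by rw [hm] at h1; simp only at h1; linarith)
    rw [← hcop k] at h2
    have h3 := hcode k 1 zero_le_one le_rfl
    rw [one_mul, code_of_one_le _ le_rfl] at h3
    rw [h3]
    rw [hg]
    simp only
    linarith
  -- slopes
  have hslope : ∀ k, ∀ z z' : ℝ, 0 ≤ z → z ≤ z' → z' ≤ m k →
      α / 2 * (z' - z) ≤ ext (g k) z - ext (g k) z' := by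
    intro k z z' h0 h1 h2
    have hmk := hm0 k
    have e1 : z = z / m k * m k := by field_simp
    have e2 : z' = z' / m k * m k := by field_simp
    have d1 := hdiff k (z / m k) (by positivity) (by rw [div_le_one hmk]; linarith)
    have d2 := hdiff k (z' / m k) (div_nonneg (h0.trans h1) hmk.le) (by rw [div_le_one hmk]; exact h2)
    rw [← e1] at d1
    rw [← e2] at d2
    have d3 := code_slope (e k) (s := z / m k) (s' := z' / m k) (by positivity) (by gcongr)
      (by rw [div_le_one hmk]; exact h2)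
    have d4 : z' - z ≤ z' / m k - z / m k := by
      rw [← sub_div, le_div_iff₀ hmk]
      have := mul_le_mul_of_nonneg_left (hm1 k) (by linarith : 0 ≤ z' - z)
      linarith
    have d5 : ext (g k) z - ext (g k) z' =
        (t k : ℝ) / 2 * (code (e k) (z' / m k) - code (e k) (z / m k)) := by linarith
    rw [d5]
    calc α / 2 * (z' - z) = α * ((z' - z) / 2) := by ring
      _ ≤ (t k : ℝ) / 2 * (code (e k) (z' / m k) - code (e k) (z / m k)) := by
          apply mul_le_mul (hαk k) (by linarith) (by linarith) (by linarith [hαk k])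
  -- lower bound for the meshes
  obtain ⟨δ, hδ, hδ'⟩ : ∃ δ > 0, ∀ᶠ k in atTop, δ ≤ m k := by
    have hy : Continuous fun z : ℝ => ext y z :=
      continuous_ext'.comp (by fun_prop : Continuous fun z : ℝ => (y, z))
    have hy0 : ContinuousAt (fun z : ℝ => ext y z) 0 := hy.continuousAt
    obtain ⟨δ, hδ, h1⟩ := Metric.continuousAt_iff.1 hy0 (α / 4) (by positivity)
    refine ⟨δ, hδ, ?_⟩
    have h2 : ∀ᶠ k in atTop, dist (g k) y < α / 8 := by
      have := (tendsto_iff_dist_tendsto_zero.1 hlim)
      exact this.eventually_lt_const (by positivity)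
    filter_upwards [h2] with k hk
    by_contra hcon
    push Not at hcon
    have h3 : dist (ext y (m k)) (ext y 0) < α / 4 := by
      apply h1
      rw [Real.dist_eq, sub_zero, abs_of_pos (hm0 k)]
      exact hcon
    have h4 := ext_close hk.le 0
    have h5 := ext_close hk.le (m k)
    have h6 := hdiff k 1 zero_le_one le_rfl
    rw [one_mul, code_of_one_le _ le_rfl, mul_one] at h6
    have h7 := hαk k
    rw [Real.dist_eq, abs_lt] at h3
    rw [abs_le] at h4 h5
    linarith [h3.1, h4.1, h4.2, h5.1, h5.2]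
  -- the meshes form a Cauchy sequence
  have hcauchy : CauchySeq m := by
    rw [Metric.cauchySeq_iff']
    intro ε hε
    set ρ : ℝ := min (ε / 2) (δ / 2) with hρ
    have hρ0 : 0 < ρ := lt_min (by linarith) (by linarith)
    have hgc : CauchySeq g := hlim.cauchySeq
    obtain ⟨n₁, hn₁⟩ := Metric.cauchySeq_iff.1 hgc (α * ρ / 8) (by positivity)
    obtain ⟨n₂, hn₂⟩ := eventually_atTop.1 hδ'
    -- one-sided estimate
    have one : ∀ k l : ℕ, max n₁ n₂ ≤ k → max n₁ n₂ ≤ l → m l - m k ≤ ρ := by
      intro k l hk hl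
      rcases le_total (m l) (m k) with h1 | h1
      · linarith
      · have hkl : dist (g k) (g l) ≤ α * ρ / 8 :=
          (hn₁ k (le_of_max_le_left hk) l (le_of_max_le_left hl)).le
        have hδk := hn₂ k (le_of_max_le_right hk)
        set z' : ℝ := min (m l) (2 * m k) with hz'
        have hz1 : m k ≤ z' := le_min h1 (by linarith [hm0 k])
        have a1 := hjoin k z' hz1 (min_le_right _ _)
        have a2 := hslope l (m k) z' (hm0 k).le hz1 (min_le_left _ _)
        have a3 := ext_close hkl (m k)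
        have a4 := ext_close hkl z'
        rw [abs_le] at a3 a4
        have a5 : α / 2 * (z' - m k) ≤ 2 * (α * ρ / 8) := by
          linarith [a3.1, a3.2, a4.1, a4.2]
        have a6 : z' - m k ≤ ρ / 2 := by
          have : α / 2 * (z' - m k) ≤ α / 2 * (ρ / 2) := by linarith
          exact le_of_mul_le_mul_left this (by positivity)
        have a7 : ρ ≤ δ / 2 := min_le_right _ _
        rcases min_cases (m l) (2 * m k) with ⟨b1, b2⟩ | ⟨b1, b2⟩
        · rw [← hz'] at b1
          rw [b1] at a6
          linarith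
        · rw [← hz'] at b1
          rw [b1] at a6
          linarith
    refine ⟨max n₁ n₂, fun k hk => ?_⟩
    have b1 := one k (max n₁ n₂) hk le_rfl
    have b2 := one (max n₁ n₂) k le_rfl hk
    rw [Real.dist_eq, abs_lt]
    have b3 : ρ ≤ ε / 2 := min_le_left _ _
    constructor <;> linarith
  obtain ⟨M, hM⟩ := cauchySeq_tendsto_of_complete hcauchy
  have hMδ : δ ≤ M := ge_of_tendsto hM hδ'
  -- limits along the coded piece
  have hlimext : ∀ s : ℝ, Tendsto (fun k => ext (g k) (s * m k)) atTop (𝓝 (ext y (s * M))) := by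
    intro s
    have h1 : Tendsto (fun k => (g k, s * m k)) atTop (𝓝 (y, s * M)) :=
      hlim.prodMk_nhds (hM.const_mul s)
    exact (continuous_ext'.tendsto (y, s * M)).comp h1
  have hlim0 : Tendsto (fun k => ext (g k) 0) atTop (𝓝 (ext y 0)) := by
    have := hlimext 0
    simpa using this
  have hprod : ∀ s : ℝ, 0 ≤ s → s ≤ 1 → Tendsto (fun k => (t k : ℝ) / 2 * code (e k) s) atTop
      (𝓝 (ext y 0 - ext y (s * M))) := by
    intro s h0 h1
    exact (hlim0.sub (hlimext s)).congr (fun k => hdiff k s h0 h1)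
  have hamp : Tendsto (fun k => (t k : ℝ) / 2) atTop (𝓝 (ext y 0 - ext y M)) := by
    have := hprod 1 zero_le_one le_rfl
    rw [one_mul] at this
    exact this.congr (fun k => by rw [code_of_one_le _ le_rfl, mul_one])
  have hA : α ≤ ext y 0 - ext y M := ge_of_tendsto' hamp hαk
  refine code_reads e (fun s => (ext y 0 - ext y (s * M)) / (ext y 0 - ext y M)) ?_ ?_
  · have hy : Continuous fun z : ℝ => ext y (z * M) :=
      continuous_ext'.comp (by fun_prop : Continuous fun z : ℝ => (y, z * M))
    exact ((continuous_const.sub hy).div_const _).continuousOn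
  · intro s hs
    have h1 := (hprod s hs.1 hs.2).div hamp (by linarith)
    refine h1.congr (fun k => ?_)
    have h2 : (t k : ℝ) / 2 ≠ 0 := by
      have := hαk k
      linarith
    show (t k : ℝ) / 2 * code (e k) s / ((t k : ℝ) / 2) = code (e k) s
    rw [mul_comm, mul_div_assoc, div_self h2, mul_one]

end Pool.Agent.Itv
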