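import Pool.Agent.Lib.Itv.Chain

set_option autoImplicit false

/-!
The coded map is the identity on an interval, so it is never transitive.
-/

open Set Filter Topology
open scoped unitInterval

namespace Pool.Agent.Itv

open Pool.Agent.Lib.Pc7f692

variable {f : C(I, I)} {a η : ℝ}

theorem exists_fix (f : C(I, I)) : ∃ p : I, f p = p := by
  have hc : Continuous fun x : I => (f x : ℝ) - x := by fun_prop
  have h0 : (0 : ℝ) ∈ Icc ((f 1 : ℝ) - (1 : I)) ((f 0 : ℝ) - (0 : I)) := by
    constructor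
    · have := (f 1).2.2
      simpa using this
    · have := (f 0).2.1
      simpa using this
  obtain ⟨p, hp⟩ := mem_range_of_exists_le_of_exists_ge hc ⟨1, h0.1⟩ ⟨0, h0.2⟩
  refine ⟨p, Subtype.ext ?_⟩
  have hp' : (f p : ℝ) - p = 0 := hp
  linarith

/-- an increasing half-lap near a point -/
theorem exists_up (hη : 0 < η) (hη1 : η ≤ 1 / 128) (p : I) : ∃ k : ℕ, 1 ≤ k ∧
    (k : ℝ) * η + η / 2 ≤ 1 ∧
    ∀ x : ℝ, (k : ℝ) * η ≤ x → x ≤ k * η + η / 2 → |x - p| ≤ 3 / 2 * η := by
  have hp0 := p.2.1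
  have hp1 := p.2.2
  obtain ⟨k, hk1, hk2⟩ : ∃ k : ℕ, (k : ℝ) * η ≤ p ∧ (p : ℝ) < ((k : ℝ) + 1) * η := by
    refine ⟨⌊(p : ℝ) / η⌋₊, ?_, ?_⟩
    · have := Nat.floor_le (by positivity : 0 ≤ (p : ℝ) / η)
      rwa [le_div_iff₀ hη] at this
    · have := Nat.lt_floor_add_one ((p : ℝ) / η)
      rwa [div_lt_iff₀ hη] at this
  rcases Nat.eq_zero_or_pos k with hk | hk
  · subst hk
    push_cast at hk1 hk2
    refine ⟨1, le_rfl, by push_cast; linarith, ?_⟩
    intro x h1 h2
    push_cast at h1 h2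
    rw [abs_le]
    constructor <;> linarith
  · rcases le_total ((k : ℝ) * η + η / 2) 1 with h | h
    · refine ⟨k, hk, h, ?_⟩
      intro x h1 h2
      rw [abs_le]
      constructor <;> linarith
    · obtain ⟨i, rfl⟩ : ∃ i, k = i + 1 := ⟨k - 1, by omega⟩
      push_cast at hk1 hk2 h
      have hi : 1 ≤ i := by
        by_contra hi
        have : i = 0 := by omega
        subst this
        push_cast at h
        linarith
      refine ⟨i, hi, by linarith, ?_⟩
      intro x h1 h2
      rw [abs_le]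
      constructor <;> linarith

theorem exists_plateau (h : Adm' f a η) (ha2 : a ≤ 1 / 2) (e : W) :
    ∃ c d : ℝ, 0 < c ∧ c < d ∧ d < 1 ∧ ∀ x ∈ Icc c d, cz f a η e x = x := by
  have hη := h.pos
  have ha := h.a_pos
  have hηa := h.eta_le
  obtain ⟨p, hp⟩ := exists_fix f
  obtain ⟨k, hk1, hk2, hk⟩ := exists_up hη h.eta_le_one p
  have hkη : η ≤ (k : ℝ) * η := by
    have : (1 : ℝ) ≤ k := by exact_mod_cast hk1
    nlinarith
  set x1 : ℝ := (k : ℝ) * η + η / 8 with hx1
  set x2 : ℝ := (k : ℝ) * η + 3 / 8 * η with hx2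
  have hx12 : x1 < x2 := by rw [hx1, hx2]; linarith
  have hI : ∀ x ∈ Icc x1 x2, x ∈ I := fun x hx => ⟨by linarith [hx.1], by linarith [hx.2]⟩
  have hnear : ∀ x ∈ Icc x1 x2, |lip f (a / η) x - p| ≤ a / 8 := by
    intro x hx
    have h1 := h.near (x := p) (hI x hx) (hk x (by linarith [hx.1]) (by linarith [hx.2])) ha2
    rwa [hp] at h1
  have v1 : unf f a η x1 - x1 < 0 := by
    have h1 := hnear x1 ⟨le_rfl, hx12.le⟩
    have h2 := hk x1 (by linarith) (by linarith)
    rw [abs_le] at h1 h2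
    have e1 : x1 / η = k + 1 / 8 := by
      rw [hx1]
      field_simp
    unfold unf
    rw [e1, zig_up k (by linarith) (by linarith)]
    have e2 : a * (4 * ((k : ℝ) + 1 / 8 - k) - 1) = - (a / 2) := by ring
    rw [e2]
    linarith [h1.2, h2.1]
  have v2 : 0 < unf f a η x2 - x2 := by
    have h1 := hnear x2 ⟨hx12.le, le_rfl⟩
    have h2 := hk x2 (by linarith) (by linarith)
    rw [abs_le] at h1 h2
    have e1 : x2 / η = k + 3 / 8 := by
      rw [hx2]
      field_simp
    unfold unf
    rw [e1, zig_up k (by linarith) (by linarith)]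
    have e2 : a * (4 * ((k : ℝ) + 3 / 8 - k) - 1) = a / 2 := by ring
    rw [e2]
    linarith [h1.1, h2.2]
  have hcont : Continuous fun x : ℝ => unf f a η x - x := (continuous_unf hη.ne').sub continuous_id
  obtain ⟨z, hz, hz0⟩ := intermediate_value_Icc hx12.le hcont.continuousOn
    (show (0 : ℝ) ∈ Icc (unf f a η x1 - x1) (unf f a η x2 - x2) from ⟨v1.le, v2.le⟩)
  have hz0' : unf f a η z - z = 0 := hz0
  have hz1 : x1 < z := by
    rcases hz.1.lt_or_eq with h1 | h1
    · exact h1
    · rw [← h1] at hz0'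
      linarith
  have hz2 : z < x2 := by
    rcases hz.2.lt_or_eq with h1 | h1
    · exact h1
    · rw [h1] at hz0'
      linarith
  have hev : ∀ᶠ x in 𝓝 z, |unf f a η x - x| < a / 64 := by
    have h1 : Tendsto (fun x : ℝ => |unf f a η x - x|) (𝓝 z) (𝓝 |unf f a η z - z|) :=
      (continuous_abs.comp hcont).tendsto z
    rw [hz0', abs_zero] at h1
    exact h1.eventually_lt_const (by positivity)
  obtain ⟨δ, hδ, hδ'⟩ := Metric.eventually_nhds_iff.1 hev
  set r : ℝ := min (δ / 2) (min ((z - x1) / 2) ((x2 - z) / 2)) with hr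
  have hr0 : 0 < r := lt_min (by linarith) (lt_min (by linarith) (by linarith))
  have hr1 : r ≤ δ / 2 := min_le_left _ _
  have hr2 : r ≤ (z - x1) / 2 := (min_le_right _ _).trans (min_le_left _ _)
  have hr3 : r ≤ (x2 - z) / 2 := (min_le_right _ _).trans (min_le_right _ _)
  refine ⟨z - r, z + r, by linarith, by linarith, by linarith, ?_⟩
  intro x hx
  have hx1' : x1 ≤ x := by linarith [hx.1]
  have hx2' : x ≤ x2 := by linarith [hx.2]
  have hxI := hI x ⟨hx1', hx2'⟩
  have h1 : |unf f a η x - x| < a / 64 := by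
    apply hδ'
    rw [Real.dist_eq, abs_lt]
    constructor <;> linarith [hx.1, hx.2]
  have h2 : chi (x / η) = 1 := by
    apply chi_one k
    · rw [le_div_iff₀ hη]; linarith
    · rw [div_le_iff₀ hη]; linarith
  unfold cz
  rw [cu_plat h e (by linarith)]
  unfold plat
  rw [h2, mul_one, clampK_eq h1.le, sub_sub_cancel, fold_of_mem hxI.1 hxI.2]

theorem cmap_not_trans (h : Adm' f a η) (ha2 : a ≤ 1 / 2) (e : W) : ¬ IsTrans (cmap h e) := by
  intro ht
  obtain ⟨c, d, hc, hcd, hd, hid⟩ := exists_plateau h ha2 e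
  have hfix : ∀ x : I, (x : ℝ) ∈ Icc c d → cmap h e x = x := by
    intro x hx
    exact Subtype.ext (hid x hx)
  set m : ℝ := (c + d) / 2 with hm
  obtain ⟨n, hn, y, ⟨x, hx, rfl⟩, hy⟩ := ht {x : I | c < x ∧ (x : ℝ) < m} {x : I | m < x ∧ (x : ℝ) < d}
    ((isOpen_lt continuous_const continuous_subtype_val).inter
      (isOpen_lt continuous_subtype_val continuous_const))
    ((isOpen_lt continuous_const continuous_subtype_val).inter
      (isOpen_lt continuous_subtype_val continuous_const))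
    ⟨⟨(c + m) / 2, by constructor <;> linarith⟩, by constructor <;> simp only <;> linarith⟩
    ⟨⟨(m + d) / 2, by constructor <;> linarith⟩, by constructor <;> simp only <;> linarith⟩
  have hit : ∀ n : ℕ, (⇑(cmap h e))^[n] x = x := by
    intro n
    apply Function.iterate_fixed
    exact hfix x ⟨hx.1.le, by linarith [hx.2]⟩
  rw [hit n] at hy
  linarith [hy.1, hx.2]

end Pool.Agent.Itv
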